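import Pool.Agent.ER.ToSys

/-!
# Positive systems

Every system of constraints `x = 1`, `x + y = z`, `x * y = z` is transformed into a system `pos S`
of the same kind such that a solution of `S` gives a solution of `pos S` in positive numbers, and
any solution of `pos S` gives a solution of `S`.
-/

namespace Pool.Agent.NPC.ER.Faith



/-- The variable of the positive system standing for `xᵢ + t`. -/
def uV (i : ℕ) : ℕ := 2 * (i + 1)

/-- Auxiliary variables. -/
def fV (k r : ℕ) : ℕ := 2 * (8 * k + r) + 1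

/-- The constraints of the positive system for the `k`-th constraint. The variable `0` stands for
the shift `t`. -/
def posC (k : ℕ) : Con → List Con
  | Con.one i => [Con.one (fV k 0), Con.add 0 (fV k 0) (uV i)]
  | Con.add i j l => [Con.add (uV i) (uV j) (fV k 0), Con.add (uV l) 0 (fV k 0)]
  | Con.mul i j l => [Con.mul (uV i) (uV j) (fV k 0), Con.mul 0 0 (fV k 1),
      Con.add (fV k 0) (fV k 1) (fV k 2), Con.add (fV k 2) 0 (fV k 3),
      Con.mul 0 (uV i) (fV k 4), Con.mul 0 (uV j) (fV k 5),
      Con.add (uV l) (fV k 4) (fV k 6), Con.add (fV k 6) (fV k 5) (fV k 3)]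

/-- The positive system. -/
def pos (S : List Con) : List Con := S.zipIdx.flatMap fun p => posC p.2 p.1

theorem mem_pos {S : List Con} {c : Con} :
    c ∈ pos S ↔ ∃ k d, S[k]? = some d ∧ c ∈ posC k d := by
  unfold pos
  rw [List.mem_flatMap]
  constructor
  · rintro ⟨⟨d, k⟩, h, hc⟩
    rw [List.mem_zipIdx_iff_getElem?] at h
    exact ⟨k, d, h, hc⟩
  · rintro ⟨k, d, h, hc⟩
    exact ⟨(d, k), List.mem_zipIdx_iff_getElem?.2 h, hc⟩

theorem pos_sound {S : List Con} (h : Sat (pos S)) : Sat S := by
  obtain ⟨v, hv⟩ := h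
  refine ⟨fun i => v (uV i) - v 0, fun c hc => ?_⟩
  obtain ⟨k, hk⟩ := List.mem_iff_getElem?.1 hc
  have h1 : ∀ d ∈ posC k c, d.Holds v := fun d hd => hv d (mem_pos.2 ⟨k, c, hk, hd⟩)
  cases c with
  | one i =>
    simp only [posC, List.mem_cons, List.not_mem_nil, or_false, forall_eq_or_imp, forall_eq,
      Con.Holds] at h1
    simp only [Con.Holds]
    linarith [h1.1, h1.2]
  | add i j l =>
    simp only [posC, List.mem_cons, List.not_mem_nil, or_false, forall_eq_or_imp, forall_eq,
      Con.Holds] at h1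
    simp only [Con.Holds]
    linarith [h1.1, h1.2]
  | mul i j l =>
    simp only [posC, List.mem_cons, List.not_mem_nil, or_false, forall_eq_or_imp, forall_eq,
      Con.Holds] at h1
    obtain ⟨h1, h2, h3, h4, h5, h6, h7, h8⟩ := h1
    simp only [Con.Holds]
    linear_combination h1 + h2 + h3 + h4 - h5 - h6 - h7 - h8

/-- The values of the auxiliary variables. -/
def valP (t : ℝ) (U : ℕ → ℝ) : Option Con → ℕ → ℝ
  | some (Con.add i j _), _ => U i + U j
  | some (Con.mul i j _), 0 => U i * U j
  | some (Con.mul _ _ _), 1 => t * t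
  | some (Con.mul i j _), 2 => U i * U j + t * t
  | some (Con.mul i j _), 3 => U i * U j + t * t + t
  | some (Con.mul i _ _), 4 => t * U i
  | some (Con.mul _ j _), 5 => t * U j
  | some (Con.mul i _ l), 6 => U l + t * U i
  | _, _ => 1

theorem valP_pos {t : ℝ} {U : ℕ → ℝ} (ht : 0 < t) (hU : ∀ i, 0 < U i) (c : Option Con) (r : ℕ) :
    0 < valP t U c r := by
  unfold valP
  split
  · exact add_pos (hU _) (hU _)
  · exact mul_pos (hU _) (hU _)
  · exact mul_pos ht ht
  · exact add_pos (mul_pos (hU _) (hU _)) (mul_pos ht ht)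
  · exact add_pos (add_pos (mul_pos (hU _) (hU _)) (mul_pos ht ht)) ht
  · exact mul_pos ht (hU _)
  · exact mul_pos ht (hU _)
  · exact add_pos (hU _) (mul_pos ht (hU _))
  · exact one_pos

/-- The positive solution. -/
def solP (t : ℝ) (U : ℕ → ℝ) (S : List Con) (n : ℕ) : ℝ :=
  if n = 0 then t else if n % 2 = 0 then U (n / 2 - 1)
  else valP t U (S[n / 2 / 8]?) (n / 2 % 8)

theorem solP_zero (t : ℝ) (U : ℕ → ℝ) (S : List Con) : solP t U S 0 = t := by simp [solP]

theorem solP_uV (t : ℝ) (U : ℕ → ℝ) (S : List Con) (i : ℕ) : solP t U S (uV i) = U i := by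
  unfold solP uV
  rw [if_neg (by omega), if_pos (by omega)]
  congr 1
  omega

theorem solP_fV (t : ℝ) (U : ℕ → ℝ) (S : List Con) (k r : ℕ) (hr : r < 8) :
    solP t U S (fV k r) = valP t U (S[k]?) r := by
  unfold solP fV
  rw [if_neg (by omega), if_neg (by omega)]
  have e1 : (2 * (8 * k + r) + 1) / 2 / 8 = k := by omega
  have e2 : (2 * (8 * k + r) + 1) / 2 % 8 = r := by omega
  rw [e1, e2]

theorem pos_complete {S : List Con} (h : Sat S) :
    ∃ v : ℕ → ℝ, (∀ i, 0 < v i) ∧ SysHolds v (pos S) := by
  obtain ⟨x, hx⟩ := h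
  -- a bound for the values
  obtain ⟨t, ht0, ht⟩ : ∃ t : ℝ, 0 < t ∧ ∀ c ∈ S, ∀ i ∈ c.vars, |x i| < t := by
    refine ⟨((S.flatMap Con.vars).map fun i => |x i|).sum + 1, ?_, ?_⟩
    · have : 0 ≤ ((S.flatMap Con.vars).map fun i => |x i|).sum := by
        apply List.sum_nonneg
        intro a ha
        obtain ⟨i, _, rfl⟩ := List.mem_map.1 ha
        exact abs_nonneg _
      linarith
    · intro c hc i hi
      have h1 : |x i| ∈ (S.flatMap Con.vars).map fun i => |x i| :=
        List.mem_map.2 ⟨i, List.mem_flatMap.2 ⟨c, hc, hi⟩, rfl⟩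
      have h2 := List.single_le_sum (l := (S.flatMap Con.vars).map fun i => |x i|) (by
        intro a ha
        obtain ⟨i, _, rfl⟩ := List.mem_map.1 ha
        exact abs_nonneg _) _ h1
      linarith
  set U : ℕ → ℝ := fun i => if |x i| < t then x i + t else t with hU
  have hUpos : ∀ i, 0 < U i := by
    intro i
    simp only [hU]
    split_ifs with h
    · have := (abs_lt.1 h).1
      linarith
    · exact ht0
  have hUx : ∀ c ∈ S, ∀ i ∈ c.vars, U i = x i + t := by
    intro c hc i hi
    simp only [hU]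
    rw [if_pos (ht c hc i hi)]
  refine ⟨solP t U S, fun n => ?_, fun c hc => ?_⟩
  · unfold solP
    split_ifs
    · exact ht0
    · exact hUpos _
    · exact valP_pos ht0 hUpos _ _
  · obtain ⟨k, d, hk, hc⟩ := mem_pos.1 hc
    have hd : d ∈ S := List.mem_iff_getElem?.2 ⟨k, hk⟩
    have h1 := hx d hd
    have h2 := hUx d hd
    cases d with
    | one i =>
      simp only [Con.vars, List.mem_cons, List.not_mem_nil, or_false, forall_eq, Con.Holds] at h1 h2
      simp only [posC, List.mem_cons, List.not_mem_nil, or_false] at hc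
      rcases hc with rfl | rfl <;>
        simp only [Con.Holds, solP_zero, solP_uV, solP_fV _ _ _ _ _ (by norm_num : 0 < 8), hk,
          valP, h2, h1]
      ring
    | add i j l =>
      simp only [Con.vars, List.mem_cons, List.not_mem_nil, or_false, forall_eq_or_imp, forall_eq,
        Con.Holds] at h1 h2
      simp only [posC, List.mem_cons, List.not_mem_nil, or_false] at hc
      rcases hc with rfl | rfl <;>
        simp only [Con.Holds, solP_zero, solP_uV, solP_fV _ _ _ _ _ (by norm_num : 0 < 8), hk,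
          valP, h2.1, h2.2.1, h2.2.2]
      linarith
    | mul i j l =>
      simp only [Con.vars, List.mem_cons, List.not_mem_nil, or_false, forall_eq_or_imp, forall_eq,
        Con.Holds] at h1 h2
      simp only [posC, List.mem_cons, List.not_mem_nil, or_false] at hc
      rcases hc with rfl | rfl | rfl | rfl | rfl | rfl | rfl | rfl <;>
        simp only [Con.Holds, solP_zero, solP_uV, solP_fV _ _ _ _ _ (by norm_num : 0 < 8),
          solP_fV _ _ _ _ _ (by norm_num : 1 < 8), solP_fV _ _ _ _ _ (by norm_num : 2 < 8),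
          solP_fV _ _ _ _ _ (by norm_num : 3 < 8), solP_fV _ _ _ _ _ (by norm_num : 4 < 8),
          solP_fV _ _ _ _ _ (by norm_num : 5 < 8), solP_fV _ _ _ _ _ (by norm_num : 6 < 8), hk,
          valP, h2.1, h2.2.1, h2.2.2]
      linear_combination -h1

end Pool.Agent.NPC.ER.Faith
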