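import Pool.Agent.H606R2.Faith.Vec
import Pool.Agent.H606R2.Faith.Pos

/-!
# Von Staudt constructions

A positive system of constraints `x = 1`, `x + y = z`, `x * y = z` is encoded by a list of triples
of points that have to be pairwise distinct and collinear, together with one triple of points that
must not be collinear.
-/

namespace Pool.Agent.NPC.ER.Faith

/-- The point `(xᵢ, 0)`. -/
def vP (i : ℕ) : ℕ := 6 + 3 * i

/-- The point `(0, xᵢ)`. -/
def wP (i : ℕ) : ℕ := 7 + 3 * i

/-- The auxiliary point of the `k`-th constraint. -/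
def kP (k : ℕ) : ℕ := 8 + 3 * k

/-- The triples of a variable. The points `0, 1, 2` are the points at infinity of the two axes and
the origin; `3, 4` are the unit points of the axes and `5` is the point at infinity of the line
through `3` and `4`. -/
def vbase (i : ℕ) : List (ℕ × ℕ × ℕ) := [(2, 0, vP i), (2, 1, wP i), (vP i, 5, wP i)]

/-- The triples of a constraint. -/
def triC (k : ℕ) : Con → List (ℕ × ℕ × ℕ)
  | Con.one i => vbase i ++ [(vP i, 5, 4)]
  | Con.add i j l => vbase i ++ vbase j ++ vbase l ++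
      [(vP i, 1, kP k), (wP j, 0, kP k), (kP k, 5, vP l)]
  | Con.mul i j l => vbase i ++ vbase j ++ vbase l ++
      [(0, 1, kP k), (3, wP j, kP k), (vP i, kP k, wP l)]

/-- The triples of a system. -/
def tri (S : List Con) : List (ℕ × ℕ × ℕ) :=
  [(2, 0, 3), (2, 1, 4), (0, 1, 5), (3, 4, 5)] ++ S.zipIdx.flatMap fun p => triC p.2 p.1

/-- A configuration of points: the triples of the list are pairwise distinct and collinear, and
the first three points are not collinear. -/
def Conf (T : List (ℕ × ℕ × ℕ)) (q : ℕ → V3) : Prop :=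
  (∀ t ∈ T, Col3 (q t.1) (q t.2.1) (q t.2.2)) ∧ det3 (q 0) (q 1) (q 2) ≠ 0

theorem mem_tri {S : List Con} {t : ℕ × ℕ × ℕ} :
    t ∈ tri S ↔ t ∈ [(2, 0, 3), (2, 1, 4), (0, 1, 5), (3, 4, 5)] ∨
      ∃ k d, S[k]? = some d ∧ t ∈ triC k d := by
  unfold tri
  rw [List.mem_append, List.mem_flatMap]
  apply or_congr Iff.rfl
  constructor
  · rintro ⟨⟨d, k⟩, h, hc⟩
    rw [List.mem_zipIdx_iff_getElem?] at h
    exact ⟨k, d, h, hc⟩
  · rintro ⟨k, d, h, hc⟩
    exact ⟨(d, k), List.mem_zipIdx_iff_getElem?.2 h, hc⟩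

/-! ### Soundness -/

/-- a vector with given coordinates -/
def cmb (X Y O : V3) (x y o : ℝ) : V3 := x • X + y • Y + o • O

theorem det3_cmb (X Y O : V3) (x y o x' y' o' x'' y'' o'' : ℝ) :
    det3 (cmb X Y O x y o) (cmb X Y O x' y' o') (cmb X Y O x'' y'' o'') =
      (x * (y' * o'' - o' * y'') - y * (x' * o'' - o' * x'') + o * (x' * y'' - y' * x'')) *
        det3 X Y O := by
  simp only [cmb, det3, Pi.add_apply, Pi.smul_apply, smul_eq_mul]
  ring

theorem exists_cmb {X Y O : V3} (h : det3 X Y O ≠ 0) (w : V3) :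
    ∃ x y o : ℝ, w = cmb X Y O x y o := by
  refine ⟨det3 w Y O / det3 X Y O, det3 X w O / det3 X Y O, det3 X Y w / det3 X Y O, ?_⟩
  have key : ∀ i, det3 X Y O * w i = det3 w Y O * X i + det3 X w O * Y i + det3 X Y w * O i := by
    intro i
    fin_cases i <;> simp [det3] <;> ring
  funext i
  have := key i
  simp only [cmb, Pi.add_apply, Pi.smul_apply, smul_eq_mul]
  field_simp
  linarith

theorem cr_0 (a b : V3) : cr a b 0 = a 1 * b 2 - a 2 * b 1 := rfl
theorem cr_1 (a b : V3) : cr a b 1 = a 2 * b 0 - a 0 * b 2 := rfl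
theorem cr_2 (a b : V3) : cr a b 2 = a 0 * b 1 - a 1 * b 0 := rfl

theorem not_ind_cmb {X Y O : V3} {x y o x' y' o' : ℝ} (h1 : y * o' = o * y')
    (h2 : x * o' = o * x') (h3 : x * y' = y * x') :
    ¬ Ind (cmb X Y O x y o) (cmb X Y O x' y' o') := by
  intro h
  apply h
  have e0 : cr (cmb X Y O x y o) (cmb X Y O x' y' o') 0 = 0 := by
    rw [cr_0]
    simp only [cmb, Pi.add_apply, Pi.smul_apply, smul_eq_mul]
    linear_combination (Y 1 * O 2 - O 1 * Y 2) * h1 + (X 1 * O 2 - O 1 * X 2) * h2 +
      (X 1 * Y 2 - Y 1 * X 2) * h3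
  have e1 : cr (cmb X Y O x y o) (cmb X Y O x' y' o') 1 = 0 := by
    rw [cr_1]
    simp only [cmb, Pi.add_apply, Pi.smul_apply, smul_eq_mul]
    linear_combination (Y 2 * O 0 - O 2 * Y 0) * h1 + (X 2 * O 0 - O 2 * X 0) * h2 +
      (X 2 * Y 0 - Y 2 * X 0) * h3
  have e2 : cr (cmb X Y O x y o) (cmb X Y O x' y' o') 2 = 0 := by
    rw [cr_2]
    simp only [cmb, Pi.add_apply, Pi.smul_apply, smul_eq_mul]
    linear_combination (Y 0 * O 1 - O 0 * Y 1) * h1 + (X 0 * O 1 - O 0 * X 1) * h2 +
      (X 0 * Y 1 - Y 0 * X 1) * h3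
  funext i
  fin_cases i
  · exact e0
  · exact e1
  · exact e2

theorem cmb_X (X Y O : V3) : X = cmb X Y O 1 0 0 := by simp [cmb]
theorem cmb_Y (X Y O : V3) : Y = cmb X Y O 0 1 0 := by simp [cmb]
theorem cmb_O (X Y O : V3) : O = cmb X Y O 0 0 1 := by simp [cmb]

section Sound

variable {X Y O : V3} (h : det3 X Y O ≠ 0)

include h

theorem on_OX {P : V3} (hP : Col3 O X P) : ∃ a a' : ℝ, a ≠ 0 ∧ a' ≠ 0 ∧ P = cmb X Y O a 0 a' := by
  obtain ⟨x, y, o, rfl⟩ := exists_cmb h P
  obtain ⟨h1, _, h2, h3⟩ := hP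
  have e : y = 0 := by
    have : det3 (cmb X Y O 0 0 1) (cmb X Y O 1 0 0) (cmb X Y O x y o) = 0 := by
      rw [← cmb_X, ← cmb_O]; exact h1
    rw [det3_cmb] at this
    rcases mul_eq_zero.1 this with h4 | h4
    · linarith
    · exact absurd h4 h
  subst e
  refine ⟨x, o, ?_, ?_, rfl⟩
  · rintro rfl
    refine not_ind_cmb (X := X) (Y := Y) (O := O) (x := 0) (y := 0) (o := 1) (x' := 0) (y' := 0)
      (o' := o) (by ring) (by ring) (by ring) ?_
    rw [← cmb_O]; exact h2
  · rintro rfl
    refine not_ind_cmb (X := X) (Y := Y) (O := O) (x := 1) (y := 0) (o := 0) (x' := x) (y' := 0)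
      (o' := 0) (by ring) (by ring) (by ring) ?_
    rw [← cmb_X]; exact h3

theorem on_OY {P : V3} (hP : Col3 O Y P) : ∃ a a' : ℝ, a ≠ 0 ∧ a' ≠ 0 ∧ P = cmb X Y O 0 a a' := by
  obtain ⟨x, y, o, rfl⟩ := exists_cmb h P
  obtain ⟨h1, _, h2, h3⟩ := hP
  have e : x = 0 := by
    have : det3 (cmb X Y O 0 0 1) (cmb X Y O 0 1 0) (cmb X Y O x y o) = 0 := by
      rw [← cmb_Y, ← cmb_O]; exact h1
    rw [det3_cmb] at this
    rcases mul_eq_zero.1 this with h4 | h4
    · linarith
    · exact absurd h4 h
  subst e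
  refine ⟨y, o, ?_, ?_, rfl⟩
  · rintro rfl
    refine not_ind_cmb (X := X) (Y := Y) (O := O) (x := 0) (y := 0) (o := 1) (x' := 0) (y' := 0)
      (o' := o) (by ring) (by ring) (by ring) ?_
    rw [← cmb_O]; exact h2
  · rintro rfl
    refine not_ind_cmb (X := X) (Y := Y) (O := O) (x := 0) (y := 1) (o := 0) (x' := 0) (y' := y)
      (o' := 0) (by ring) (by ring) (by ring) ?_
    rw [← cmb_Y]; exact h3

theorem on_XY {P : V3} (hP : Col3 X Y P) : ∃ a a' : ℝ, a ≠ 0 ∧ a' ≠ 0 ∧ P = cmb X Y O a a' 0 := by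
  obtain ⟨x, y, o, rfl⟩ := exists_cmb h P
  obtain ⟨h1, _, h2, h3⟩ := hP
  have e : o = 0 := by
    have : det3 (cmb X Y O 1 0 0) (cmb X Y O 0 1 0) (cmb X Y O x y o) = 0 := by
      rw [← cmb_X, ← cmb_Y]; exact h1
    rw [det3_cmb] at this
    rcases mul_eq_zero.1 this with h4 | h4
    · linarith
    · exact absurd h4 h
  subst e
  refine ⟨x, y, ?_, ?_, rfl⟩
  · rintro rfl
    refine not_ind_cmb (X := X) (Y := Y) (O := O) (x := 0) (y := 1) (o := 0) (x' := 0) (y' := y)
      (o' := 0) (by ring) (by ring) (by ring) ?_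
    rw [← cmb_Y]; exact h3
  · rintro rfl
    refine not_ind_cmb (X := X) (Y := Y) (O := O) (x := 1) (y := 0) (o := 0) (x' := x) (y' := 0)
      (o' := 0) (by ring) (by ring) (by ring) ?_
    rw [← cmb_X]; exact h2

theorem det_zero {x y o x' y' o' x'' y'' o'' : ℝ}
    (h0 : det3 (cmb X Y O x y o) (cmb X Y O x' y' o') (cmb X Y O x'' y'' o'') = 0) :
    x * (y' * o'' - o' * y'') - y * (x' * o'' - o' * x'') + o * (x' * y'' - y' * x'') = 0 := by
  rw [det3_cmb] at h0
  rcases mul_eq_zero.1 h0 with h1 | h1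
  · exact h1
  · exact absurd h1 h

end Sound

/-- The value of the `i`-th variable, read off from a configuration. -/
noncomputable def rd (q : ℕ → V3) (i : ℕ) : ℝ :=
  det3 (q (vP i)) (q 1) (q 2) / det3 (q 0) (q 1) (q (vP i)) *
    (det3 (q 0) (q 1) (q 3) / det3 (q 3) (q 1) (q 2))

theorem tri_sound {S : List Con} {q : ℕ → V3} (hq : Conf (tri S) q) : Sat S := by
  obtain ⟨hT, hΔ⟩ := hq
  set X := q 0 with hX
  set Y := q 1 with hY
  set O := q 2 with hO
  have hU : Col3 O X (q 3) := hT (2, 0, 3) (mem_tri.2 (Or.inl (by simp)))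
  have hW : Col3 O Y (q 4) := hT (2, 1, 4) (mem_tri.2 (Or.inl (by simp)))
  have hD : Col3 X Y (q 5) := hT (0, 1, 5) (mem_tri.2 (Or.inl (by simp)))
  have hUWD : Col3 (q 3) (q 4) (q 5) := hT (3, 4, 5) (mem_tri.2 (Or.inl (by simp)))
  obtain ⟨α, β, hα, hβ, eU⟩ := on_OX hΔ hU
  obtain ⟨γ, δ, hγ, hδ, eW⟩ := on_OY hΔ hW
  obtain ⟨ε, ζ, hε, hζ, eD⟩ := on_XY hΔ hD
  have r0 : α * δ * ζ + β * γ * ε = 0 := by
    have := hUWD.1
    rw [eU, eW, eD] at this
    linear_combination -(det_zero hΔ this)
  -- variables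
  have hvar : ∀ i, (∀ t ∈ vbase i, Col3 (q t.1) (q t.2.1) (q t.2.2)) →
      ∃ a a' b b' : ℝ, a ≠ 0 ∧ a' ≠ 0 ∧ b ≠ 0 ∧ b' ≠ 0 ∧ q (vP i) = cmb X Y O a 0 a' ∧
        q (wP i) = cmb X Y O 0 b b' ∧ rd q i = a * β / (a' * α) ∧ rd q i = b * δ / (b' * γ) := by
    intro i hi
    have h1 : Col3 O X (q (vP i)) := hi (2, 0, vP i) (by simp [vbase])
    have h2 : Col3 O Y (q (wP i)) := hi (2, 1, wP i) (by simp [vbase])
    have h3 : Col3 (q (vP i)) (q 5) (q (wP i)) := hi (vP i, 5, wP i) (by simp [vbase])
    obtain ⟨a, a', ha, ha', eV⟩ := on_OX hΔ h1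
    obtain ⟨b, b', hb, hb', eW'⟩ := on_OY hΔ h2
    have r1 : a * ζ * b' + a' * ε * b = 0 := by
      have := h3.1
      rw [eV, eD, eW'] at this
      linear_combination det_zero hΔ this
    have r2 : a' * b * α * δ = a * b' * β * γ := by
      have : ε * (a' * b * α * δ - a * b' * β * γ) = 0 := by
        linear_combination (α * δ) * r1 - (a * b') * r0
      rcases mul_eq_zero.1 this with h4 | h4
      · exact absurd h4 hε
      · linarith
    have e1 : rd q i = a * β / (a' * α) := by
      have f1 : det3 (q (vP i)) Y O = a * det3 X Y O := by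
        rw [eV]; simp only [cmb, det3, Pi.add_apply, Pi.smul_apply, smul_eq_mul]; ring
      have f2 : det3 X Y (q (vP i)) = a' * det3 X Y O := by
        rw [eV]; simp only [cmb, det3, Pi.add_apply, Pi.smul_apply, smul_eq_mul]; ring
      have f3 : det3 (q 3) Y O = α * det3 X Y O := by
        rw [eU]; simp only [cmb, det3, Pi.add_apply, Pi.smul_apply, smul_eq_mul]; ring
      have f4 : det3 X Y (q 3) = β * det3 X Y O := by
        rw [eU]; simp only [cmb, det3, Pi.add_apply, Pi.smul_apply, smul_eq_mul]; ring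
      unfold rd
      rw [← hX, ← hY, ← hO, f1, f2, f3, f4]
      field_simp
    refine ⟨a, a', b, b', ha, ha', hb, hb', eV, eW', e1, ?_⟩
    rw [e1]
    field_simp
    linear_combination -r2
  refine ⟨rd q, fun c hc => ?_⟩
  obtain ⟨k, hk⟩ := List.mem_iff_getElem?.1 hc
  have h1 : ∀ t ∈ triC k c, Col3 (q t.1) (q t.2.1) (q t.2.2) :=
    fun t ht => hT t (mem_tri.2 (Or.inr ⟨k, c, hk, ht⟩))
  cases c with
  | one i =>
    obtain ⟨a, a', b, b', ha, ha', hb, hb', eV, eW', e1, e2⟩ := hvar i fun t ht =>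
      h1 t (by simp only [triC, List.mem_append]; exact Or.inl ht)
    have h3 : Col3 (q (vP i)) (q 5) (q 4) := h1 (vP i, 5, 4) (by simp [triC])
    have r1 : a * ζ * δ + a' * ε * γ = 0 := by
      have := h3.1
      rw [eV, eD, eW] at this
      linear_combination det_zero hΔ this
    have r2 : a * β = a' * α := by
      have : ε * γ * (a * β - a' * α) = 0 := by
        linear_combination a * r0 - α * r1
      rcases mul_eq_zero.1 this with h4 | h4
      · exact absurd h4 (mul_ne_zero hε hγ)
      · linarith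
    simp only [Con.Holds]
    rw [e1, r2]
    exact div_self (mul_ne_zero ha' hα)
  | add i j l =>
    obtain ⟨a, a', _, _, ha, ha', _, _, eV, _, e1, _⟩ := hvar i fun t ht =>
      h1 t (by simp only [triC, List.mem_append]; exact Or.inl (Or.inl (Or.inl ht)))
    obtain ⟨_, _, b, b', _, _, hb, hb', _, eW', _, e2⟩ := hvar j fun t ht =>
      h1 t (by simp only [triC, List.mem_append]; exact Or.inl (Or.inl (Or.inr ht)))
    obtain ⟨c, c', _, _, hc, hc', _, _, eV', _, e3, _⟩ := hvar l fun t ht =>
      h1 t (by simp only [triC, List.mem_append]; exact Or.inl (Or.inr ht))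
    have g1 : Col3 (q (vP i)) (q 1) (q (kP k)) := h1 (vP i, 1, kP k) (by simp [triC])
    have g2 : Col3 (q (wP j)) (q 0) (q (kP k)) := h1 (wP j, 0, kP k) (by simp [triC])
    have g3 : Col3 (q (kP k)) (q 5) (q (vP l)) := h1 (kP k, 5, vP l) (by simp [triC])
    obtain ⟨x, y, o, eK⟩ := exists_cmb hΔ (q (kP k))
    have s1 : a * o = a' * x := by
      have : det3 (cmb X Y O a 0 a') (cmb X Y O 0 1 0) (cmb X Y O x y o) = 0 := by
        rw [← cmb_Y, ← eK, ← eV]; exact g1.1
      linear_combination det_zero hΔ this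
    have s2 : b' * y = b * o := by
      have : det3 (cmb X Y O 0 b b') (cmb X Y O 1 0 0) (cmb X Y O x y o) = 0 := by
        rw [← cmb_X, ← eK, ← eW']; exact g2.1
      linear_combination det_zero hΔ this
    have s3 : ζ * c' * x - ε * c' * y - ζ * c * o = 0 := by
      have := g3.1
      rw [eV', eD, eK] at this
      linear_combination det_zero hΔ this
    have ho : o ≠ 0 := by
      rintro rfl
      have hx : x = 0 := by
        rcases mul_eq_zero.1 (by linarith : a' * x = 0) with h4 | h4
        · exact absurd h4 ha'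
        · exact h4
      have hy : y = 0 := by
        rcases mul_eq_zero.1 (by linarith : b' * y = 0) with h4 | h4
        · exact absurd h4 hb'
        · exact h4
      apply g1.2.2.1.ne_zero_right
      rw [eK, hx, hy]
      simp [cmb]
    simp only [Con.Holds]
    rw [e1, e2, e3]
    have s4 : ζ * c' * a * b' - ε * c' * b * a' - ζ * c * a' * b' = 0 := by
      have : o * (ζ * c' * a * b' - ε * c' * b * a' - ζ * c * a' * b') = 0 := by
        linear_combination (a' * b') * s3 + (ζ * c' * b') * s1 + (ε * c' * a') * s2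
      rcases mul_eq_zero.1 this with h4 | h4
      · exact absurd h4 ho
      · exact h4
    have s5 : a * b' * c' * β * γ + b * a' * c' * δ * α - c * a' * b' * β * γ = 0 := by
      have : ε * (a * b' * c' * β * γ + b * a' * c' * δ * α - c * a' * b' * β * γ) = 0 := by
        linear_combination (a * b' * c' - c * a' * b') * r0 - (α * δ) * s4
      rcases mul_eq_zero.1 this with h4 | h4
      · exact absurd h4 hε
      · exact h4
    rw [div_add_div _ _ (mul_ne_zero ha' hα) (mul_ne_zero hb' hγ),
      div_eq_div_iff (mul_ne_zero (mul_ne_zero ha' hα) (mul_ne_zero hb' hγ))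
        (mul_ne_zero hc' hα)]
    linear_combination α * s5
  | mul i j l =>
    obtain ⟨a, a', _, _, ha, ha', _, _, eV, _, e1, _⟩ := hvar i fun t ht =>
      h1 t (by simp only [triC, List.mem_append]; exact Or.inl (Or.inl (Or.inl ht)))
    obtain ⟨_, _, b, b', _, _, hb, hb', _, eW', _, e2⟩ := hvar j fun t ht =>
      h1 t (by simp only [triC, List.mem_append]; exact Or.inl (Or.inl (Or.inr ht)))
    obtain ⟨_, _, c, c', _, _, hc, hc', _, eW'', _, e3⟩ := hvar l fun t ht =>
      h1 t (by simp only [triC, List.mem_append]; exact Or.inl (Or.inr ht))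
    have g1 : Col3 X Y (q (kP k)) := h1 (0, 1, kP k) (by simp [triC])
    have g2 : Col3 (q 3) (q (wP j)) (q (kP k)) := h1 (3, wP j, kP k) (by simp [triC])
    have g3 : Col3 (q (vP i)) (q (kP k)) (q (wP l)) := h1 (vP i, kP k, wP l) (by simp [triC])
    obtain ⟨x, y, hx, hy, eK⟩ := on_XY hΔ g1
    have s1 : α * b' * y + β * b * x = 0 := by
      have := g2.1
      rw [eU, eW', eK] at this
      linear_combination -(det_zero hΔ this)
    have s2 : a * c' * y + a' * c * x = 0 := by
      have := g3.1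
      rw [eV, eK, eW''] at this
      linear_combination det_zero hΔ this
    simp only [Con.Holds]
    rw [e1, e2, e3]
    have s3 : a' * c * α * b' - a * c' * β * b = 0 := by
      have : x * (a' * c * α * b' - a * c' * β * b) = 0 := by
        linear_combination (α * b') * s2 - (a * c') * s1
      rcases mul_eq_zero.1 this with h4 | h4
      · exact absurd h4 hx
      · exact h4
    rw [div_mul_div_comm, div_eq_div_iff (mul_ne_zero (mul_ne_zero ha' hα) (mul_ne_zero hb' hγ))
      (mul_ne_zero hc' hγ)]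
    linear_combination (-(γ * δ)) * s3

/-! ### Completeness -/

/-- The auxiliary point of a constraint. -/
def auxPt (v : ℕ → ℝ) : Option Con → V3
  | some (Con.add i j _) => ![v i, v j, 1]
  | some (Con.mul _ j _) => ![1, - v j, 0]
  | _ => ![0, 0, 1]

/-- The configuration of a positive solution. -/
def confOf (v : ℕ → ℝ) (S : List Con) (n : ℕ) : V3 :=
  if n = 0 then ![1, 0, 0] else if n = 1 then ![0, 1, 0] else if n = 2 then ![0, 0, 1]
  else if n = 3 then ![1, 0, 1] else if n = 4 then ![0, 1, 1] else if n = 5 then ![1, -1, 0]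
  else if n % 3 = 0 then ![v (n / 3 - 2), 0, 1] else if n % 3 = 1 then ![0, v (n / 3 - 2), 1]
  else auxPt v (S[n / 3 - 2]?)

theorem confOf_vP (v : ℕ → ℝ) (S : List Con) (i : ℕ) : confOf v S (vP i) = ![v i, 0, 1] := by
  unfold confOf vP
  rw [if_neg (by omega), if_neg (by omega), if_neg (by omega), if_neg (by omega),
    if_neg (by omega), if_neg (by omega), if_pos (by omega)]
  have : (6 + 3 * i) / 3 - 2 = i := by omega
  rw [this]

theorem confOf_wP (v : ℕ → ℝ) (S : List Con) (i : ℕ) : confOf v S (wP i) = ![0, v i, 1] := by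
  unfold confOf wP
  rw [if_neg (by omega), if_neg (by omega), if_neg (by omega), if_neg (by omega),
    if_neg (by omega), if_neg (by omega), if_neg (by omega), if_pos (by omega)]
  have : (7 + 3 * i) / 3 - 2 = i := by omega
  rw [this]

theorem confOf_kP (v : ℕ → ℝ) (S : List Con) (k : ℕ) :
    confOf v S (kP k) = auxPt v (S[k]?) := by
  unfold confOf kP
  rw [if_neg (by omega), if_neg (by omega), if_neg (by omega), if_neg (by omega),
    if_neg (by omega), if_neg (by omega), if_neg (by omega), if_neg (by omega)]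
  have : (8 + 3 * k) / 3 - 2 = k := by omega
  rw [this]

theorem confOf_0 (v : ℕ → ℝ) (S : List Con) : confOf v S 0 = ![1, 0, 0] := rfl
theorem confOf_1 (v : ℕ → ℝ) (S : List Con) : confOf v S 1 = ![0, 1, 0] := rfl
theorem confOf_2 (v : ℕ → ℝ) (S : List Con) : confOf v S 2 = ![0, 0, 1] := rfl
theorem confOf_3 (v : ℕ → ℝ) (S : List Con) : confOf v S 3 = ![1, 0, 1] := rfl
theorem confOf_4 (v : ℕ → ℝ) (S : List Con) : confOf v S 4 = ![0, 1, 1] := rfl
theorem confOf_5 (v : ℕ → ℝ) (S : List Con) : confOf v S 5 = ![1, -1, 0] := rfl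

theorem confOf_ne_zero (v : ℕ → ℝ) (S : List Con) (n : ℕ) : confOf v S n ≠ 0 := by
  intro h
  have h0 : confOf v S n 0 = 0 := by rw [h]; rfl
  have h1 : confOf v S n 1 = 0 := by rw [h]; rfl
  have h2 : confOf v S n 2 = 0 := by rw [h]; rfl
  revert h0 h1 h2
  unfold confOf
  split_ifs
  · intro h0; simp at h0
  · intro _ h0; simp at h0
  · intro _ _ h0; simp at h0
  · intro h0; simp at h0
  · intro _ _ h0; simp at h0
  · intro h0; simp at h0
  · intro _ _ h0; simp at h0
  · intro _ _ h0; simp at h0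
  · generalize S[n / 3 - 2]? = o
    rcases o with _ | (c | c | c)
    · intro _ _ h0; simp [auxPt] at h0
    · intro _ _ h0; simp [auxPt] at h0
    · intro _ _ h0; simp [auxPt] at h0
    · intro h0; simp [auxPt] at h0

theorem ind_of_0 {a b : V3} (h : a 1 * b 2 - a 2 * b 1 ≠ 0) : Ind a b := fun h0 => h (by
  have := congrFun h0 0
  rwa [cr_0] at this)

theorem ind_of_1 {a b : V3} (h : a 2 * b 0 - a 0 * b 2 ≠ 0) : Ind a b := fun h0 => h (by
  have := congrFun h0 1
  rwa [cr_1] at this)

theorem ind_of_2 {a b : V3} (h : a 0 * b 1 - a 1 * b 0 ≠ 0) : Ind a b := fun h0 => h (by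
  have := congrFun h0 2
  rwa [cr_2] at this)

theorem tri_complete {S : List Con} {v : ℕ → ℝ} (hv : ∀ i, 0 < v i) (h : SysHolds v S) :
    Conf (tri S) (confOf v S) := by
  have hb : ∀ i, ∀ t ∈ vbase i,
      Col3 (confOf v S t.1) (confOf v S t.2.1) (confOf v S t.2.2) := by
    intro i t ht
    have hi := (hv i).ne'
    simp only [vbase, List.mem_cons, List.not_mem_nil, or_false] at ht
    rcases ht with rfl | rfl | rfl
    · simp only [confOf_vP, confOf_0, confOf_2]
      refine ⟨by simp [det3], ind_of_1 (by simp), ind_of_1 (by simpa using hi),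
        ind_of_1 (by simp)⟩
    · simp only [confOf_wP, confOf_1, confOf_2]
      refine ⟨by simp [det3], ind_of_0 (by simp), ind_of_0 (by simpa using hi),
        ind_of_0 (by simp)⟩
    · simp only [confOf_vP, confOf_wP, confOf_5]
      refine ⟨by simp [det3], ind_of_0 (by simp), ind_of_0 (by simpa using hi),
        ind_of_0 (by simp)⟩
  refine ⟨fun t ht => ?_, by simp [confOf_0, confOf_1, confOf_2, det3]⟩
  rcases mem_tri.1 ht with ht | ⟨k, d, hk, ht⟩
  · simp only [List.mem_cons, List.not_mem_nil, or_false] at ht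
    rcases ht with rfl | rfl | rfl | rfl
    · simp only [confOf_0, confOf_2, confOf_3]
      exact ⟨by simp [det3], ind_of_1 (by simp), ind_of_1 (by simp), ind_of_1 (by simp)⟩
    · simp only [confOf_1, confOf_2, confOf_4]
      exact ⟨by simp [det3], ind_of_0 (by simp), ind_of_0 (by simp), ind_of_0 (by simp)⟩
    · simp only [confOf_0, confOf_1, confOf_5]
      exact ⟨by simp [det3], ind_of_2 (by simp), ind_of_2 (by simp), ind_of_2 (by simp)⟩
    · simp only [confOf_3, confOf_4, confOf_5]
      exact ⟨by simp [det3], ind_of_0 (by simp), ind_of_0 (by simp), ind_of_0 (by simp)⟩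
  · have hd : d ∈ S := List.mem_iff_getElem?.2 ⟨k, hk⟩
    have h1 := h d hd
    cases d with
    | one i =>
      simp only [Con.Holds] at h1
      simp only [triC, List.mem_append] at ht
      rcases ht with ht | ht
      · exact hb _ t ht
      · simp only [List.mem_cons, List.not_mem_nil, or_false] at ht
        subst ht
        simp only [confOf_vP, confOf_4, confOf_5, h1]
        exact ⟨by simp [det3], ind_of_0 (by simp), ind_of_0 (by simp), ind_of_0 (by simp)⟩
    | add i j l =>
      have hi := (hv i).ne'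
      have hj := (hv j).ne'
      simp only [Con.Holds] at h1
      simp only [triC, List.mem_append] at ht
      rcases ht with ((ht | ht) | ht) | ht
      · exact hb _ t ht
      · exact hb _ t ht
      · exact hb _ t ht
      · simp only [List.mem_cons, List.not_mem_nil, or_false] at ht
        rcases ht with rfl | rfl | rfl
        · simp only [confOf_vP, confOf_1, confOf_kP, hk, auxPt]
          refine ⟨by simp [det3], ind_of_0 (by simp), ind_of_0 (by simpa using hj),
            ind_of_0 (by simp)⟩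
        · simp only [confOf_wP, confOf_0, confOf_kP, hk, auxPt]
          refine ⟨by simp [det3], ind_of_1 (by simp), ind_of_1 (by simpa using hi),
            ind_of_1 (by simp)⟩
        · simp only [confOf_vP, confOf_5, confOf_kP, hk, auxPt]
          refine ⟨by simp [det3]; linarith, ind_of_0 (by simp), ind_of_0 (by simpa using hj),
            ind_of_0 (by simp)⟩
    | mul i j l =>
      have hi := (hv i).ne'
      have hj := (hv j).ne'
      simp only [Con.Holds] at h1
      simp only [triC, List.mem_append] at ht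
      rcases ht with ((ht | ht) | ht) | ht
      · exact hb _ t ht
      · exact hb _ t ht
      · exact hb _ t ht
      · simp only [List.mem_cons, List.not_mem_nil, or_false] at ht
        rcases ht with rfl | rfl | rfl
        · simp only [confOf_1, confOf_0, confOf_kP, hk, auxPt]
          refine ⟨by simp [det3], ind_of_2 (by simp), ind_of_2 (by simpa using hj),
            ind_of_2 (by simp)⟩
        · simp only [confOf_wP, confOf_3, confOf_kP, hk, auxPt]
          refine ⟨by simp [det3], ind_of_0 (by simpa using hj), ind_of_0 (by simpa using hj),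
            ind_of_0 (by simpa using hj)⟩
        · simp only [confOf_vP, confOf_wP, confOf_kP, hk, auxPt]
          refine ⟨by simp [det3]; linarith, ind_of_0 (by simpa using hj),
            ind_of_0 (by simpa using (hv l).ne'), ind_of_0 (by simpa using hj)⟩

end Pool.Agent.NPC.ER.Faith
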