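import Pool.Agent.H606R2.Faith.Graph
import Pool.Agent.H606R2.Faith.VS
import Pool.Agent.ER.Hard

/-!
# The reduction is computable in polynomial time
-/

namespace Pool.Agent.NPC.ER.Faith

variable {α : Type} [TEnc α]

theorem poly_lin {n : α → ℕ} (a b : ℕ) (hn : Poly n) : Poly (fun x => a + b * n x) :=
  Poly.add (Poly.const a) (Poly.mul (Poly.const b) hn)

theorem poly_uV {n : α → ℕ} (hn : Poly n) : Poly (fun x => uV (n x)) :=
  Poly.mul (Poly.const 2) (Poly.succ hn)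

theorem poly_fV {n : α → ℕ} (r : ℕ) (hn : Poly n) : Poly (fun x => fV (n x) r) :=
  Poly.succ (Poly.mul (Poly.const 2) (Poly.add (Poly.mul (Poly.const 8) hn) (Poly.const r)))

theorem poly_vP {n : α → ℕ} (hn : Poly n) : Poly (fun x => vP (n x)) := poly_lin 6 3 hn
theorem poly_wP {n : α → ℕ} (hn : Poly n) : Poly (fun x => wP (n x)) := poly_lin 7 3 hn
theorem poly_kP {n : α → ℕ} (hn : Poly n) : Poly (fun x => kP (n x)) := poly_lin 8 3 hn

theorem poly_nil {β : Type} [TEnc β] : Poly (fun _ : α => ([] : List β)) := Poly.const _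

theorem poly_tri3 {a b c : α → ℕ} (ha : Poly a) (hb : Poly b) (hc : Poly c) :
    Poly (fun x => ((a x, b x, c x) : ℕ × ℕ × ℕ)) := ha.pair (hb.pair hc)

/-- Case distinction on a constraint. -/
theorem poly_conCases {β : Type} [TEnc β] {c : α → Con} (hc : Poly c) {f₀ : α → ℕ → β}
    {f₁ f₂ : α → ℕ → ℕ → ℕ → β} (h₀ : Poly (fun p : α × ℕ => f₀ p.1 p.2))
    (h₁ : Poly (fun p : α × ℕ × ℕ × ℕ => f₁ p.1 p.2.1 p.2.2.1 p.2.2.2))
    (h₂ : Poly (fun p : α × ℕ × ℕ × ℕ => f₂ p.1 p.2.1 p.2.2.1 p.2.2.2)) :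
    Poly (fun x => match c x with
      | Con.one i => f₀ x i
      | Con.add i j k => f₁ x i j k
      | Con.mul i j k => f₂ x i j k) := by
  have hcode : Poly (fun x => (c x).code) := poly_con_code hc
  have e1 : Poly (fun x => f₀ x (c x).code.2.1) :=
    h₀.comp (Poly.pair Poly.id (Poly.fst (Poly.snd hcode)))
  have e2 : Poly (fun x => f₁ x (c x).code.2.1 (c x).code.2.2.1 (c x).code.2.2.2) :=
    h₁.comp (Poly.pair Poly.id (Poly.pair (Poly.fst (Poly.snd hcode))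
      (Poly.pair (Poly.fst (Poly.snd (Poly.snd hcode))) (Poly.snd (Poly.snd (Poly.snd hcode))))))
  have e3 : Poly (fun x => f₂ x (c x).code.2.1 (c x).code.2.2.1 (c x).code.2.2.2) :=
    h₂.comp (Poly.pair Poly.id (Poly.pair (Poly.fst (Poly.snd hcode))
      (Poly.pair (Poly.fst (Poly.snd (Poly.snd hcode))) (Poly.snd (Poly.snd (Poly.snd hcode))))))
  have e4 : Poly (fun x => if (c x).code.1 = 0 then f₀ x (c x).code.2.1 else
      if (c x).code.1 = 1 then f₁ x (c x).code.2.1 (c x).code.2.2.1 (c x).code.2.2.2 else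
      f₂ x (c x).code.2.1 (c x).code.2.2.1 (c x).code.2.2.2) :=
    Poly.ite (Poly.decide_eq (Poly.fst hcode) (Poly.const _)) e1
      (Poly.ite (Poly.decide_eq (Poly.fst hcode) (Poly.const _)) e2 e3)
  refine e4.congr fun x => ?_
  cases c x <;> rfl

theorem poly_posC : Poly (fun p : Con × ℕ => posC p.2 p.1) := by
  have h := poly_conCases (α := Con × ℕ) (c := fun p => p.1)
    (f₀ := fun p i => [Con.one (fV p.2 0), Con.add 0 (fV p.2 0) (uV i)])
    (f₁ := fun p i j l => [Con.add (uV i) (uV j) (fV p.2 0), Con.add (uV l) 0 (fV p.2 0)])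
    (f₂ := fun p i j l => [Con.mul (uV i) (uV j) (fV p.2 0), Con.mul 0 0 (fV p.2 1),
      Con.add (fV p.2 0) (fV p.2 1) (fV p.2 2), Con.add (fV p.2 2) 0 (fV p.2 3),
      Con.mul 0 (uV i) (fV p.2 4), Con.mul 0 (uV j) (fV p.2 5),
      Con.add (uV l) (fV p.2 4) (fV p.2 6), Con.add (fV p.2 6) (fV p.2 5) (fV p.2 3)])
    (Poly.fst Poly.id) ?_ ?_ ?_
  · refine h.congr fun p => ?_
    obtain ⟨c, k⟩ := p
    cases c <;> rfl
  · have k : Poly (fun p : (Con × ℕ) × ℕ => p.1.2) := Poly.snd (Poly.fst Poly.id)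
    have i : Poly (fun p : (Con × ℕ) × ℕ => p.2) := Poly.snd Poly.id
    exact Poly.cons (poly_con_one (poly_fV 0 k)) (Poly.cons (poly_con_add (Poly.const 0)
      (poly_fV 0 k) (poly_uV i)) (Poly.const _))
  · have k : Poly (fun p : (Con × ℕ) × ℕ × ℕ × ℕ => p.1.2) := Poly.snd (Poly.fst Poly.id)
    have i : Poly (fun p : (Con × ℕ) × ℕ × ℕ × ℕ => p.2.1) := Poly.fst (Poly.snd Poly.id)
    have j : Poly (fun p : (Con × ℕ) × ℕ × ℕ × ℕ => p.2.2.1) :=
      Poly.fst (Poly.snd (Poly.snd Poly.id))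
    have l : Poly (fun p : (Con × ℕ) × ℕ × ℕ × ℕ => p.2.2.2) :=
      Poly.snd (Poly.snd (Poly.snd Poly.id))
    exact Poly.cons (poly_con_add (poly_uV i) (poly_uV j) (poly_fV 0 k))
      (Poly.cons (poly_con_add (poly_uV l) (Poly.const 0) (poly_fV 0 k)) (Poly.const _))
  · have k : Poly (fun p : (Con × ℕ) × ℕ × ℕ × ℕ => p.1.2) := Poly.snd (Poly.fst Poly.id)
    have i : Poly (fun p : (Con × ℕ) × ℕ × ℕ × ℕ => p.2.1) := Poly.fst (Poly.snd Poly.id)
    have j : Poly (fun p : (Con × ℕ) × ℕ × ℕ × ℕ => p.2.2.1) :=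
      Poly.fst (Poly.snd (Poly.snd Poly.id))
    have l : Poly (fun p : (Con × ℕ) × ℕ × ℕ × ℕ => p.2.2.2) :=
      Poly.snd (Poly.snd (Poly.snd Poly.id))
    have z : Poly (fun _ : (Con × ℕ) × ℕ × ℕ × ℕ => 0) := Poly.const 0
    exact Poly.cons (poly_con_mul (poly_uV i) (poly_uV j) (poly_fV 0 k))
      (Poly.cons (poly_con_mul z z (poly_fV 1 k))
      (Poly.cons (poly_con_add (poly_fV 0 k) (poly_fV 1 k) (poly_fV 2 k))
      (Poly.cons (poly_con_add (poly_fV 2 k) z (poly_fV 3 k))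
      (Poly.cons (poly_con_mul z (poly_uV i) (poly_fV 4 k))
      (Poly.cons (poly_con_mul z (poly_uV j) (poly_fV 5 k))
      (Poly.cons (poly_con_add (poly_uV l) (poly_fV 4 k) (poly_fV 6 k))
      (Poly.cons (poly_con_add (poly_fV 6 k) (poly_fV 5 k) (poly_fV 3 k)) (Poly.const _))))))))

theorem poly_pos {S : α → List Con} (hS : Poly S) : Poly (fun a => pos (S a)) :=
  Poly.flatMap (F := fun _ (p : Con × ℕ) => posC p.2 p.1) (Poly.zipIdx hS)
    (poly_posC.comp (Poly.snd Poly.id))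

theorem poly_vbase {i : α → ℕ} (hi : Poly i) : Poly (fun a => vbase (i a)) :=
  Poly.cons (poly_tri3 (Poly.const 2) (Poly.const 0) (poly_vP hi))
    (Poly.cons (poly_tri3 (Poly.const 2) (Poly.const 1) (poly_wP hi))
      (Poly.cons (poly_tri3 (poly_vP hi) (Poly.const 5) (poly_wP hi)) (Poly.const _)))

theorem poly_triC : Poly (fun p : Con × ℕ => triC p.2 p.1) := by
  have h := poly_conCases (α := Con × ℕ) (c := fun p => p.1)
    (f₀ := fun p i => vbase i ++ [(vP i, 5, 4)])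
    (f₁ := fun p i j l => vbase i ++ vbase j ++ vbase l ++
      [(vP i, 1, kP p.2), (wP j, 0, kP p.2), (kP p.2, 5, vP l)])
    (f₂ := fun p i j l => vbase i ++ vbase j ++ vbase l ++
      [(0, 1, kP p.2), (3, wP j, kP p.2), (vP i, kP p.2, wP l)])
    (Poly.fst Poly.id) ?_ ?_ ?_
  · refine h.congr fun p => ?_
    obtain ⟨c, k⟩ := p
    cases c <;> rfl
  · have i : Poly (fun p : (Con × ℕ) × ℕ => p.2) := Poly.snd Poly.id
    exact Poly.append (poly_vbase i) (Poly.cons (poly_tri3 (poly_vP i) (Poly.const 5)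
      (Poly.const 4)) (Poly.const _))
  · have k : Poly (fun p : (Con × ℕ) × ℕ × ℕ × ℕ => p.1.2) := Poly.snd (Poly.fst Poly.id)
    have i : Poly (fun p : (Con × ℕ) × ℕ × ℕ × ℕ => p.2.1) := Poly.fst (Poly.snd Poly.id)
    have j : Poly (fun p : (Con × ℕ) × ℕ × ℕ × ℕ => p.2.2.1) :=
      Poly.fst (Poly.snd (Poly.snd Poly.id))
    have l : Poly (fun p : (Con × ℕ) × ℕ × ℕ × ℕ => p.2.2.2) :=
      Poly.snd (Poly.snd (Poly.snd Poly.id))
    exact Poly.append (Poly.append (Poly.append (poly_vbase i) (poly_vbase j)) (poly_vbase l))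
      (Poly.cons (poly_tri3 (poly_vP i) (Poly.const 1) (poly_kP k))
      (Poly.cons (poly_tri3 (poly_wP j) (Poly.const 0) (poly_kP k))
      (Poly.cons (poly_tri3 (poly_kP k) (Poly.const 5) (poly_vP l)) (Poly.const _))))
  · have k : Poly (fun p : (Con × ℕ) × ℕ × ℕ × ℕ => p.1.2) := Poly.snd (Poly.fst Poly.id)
    have i : Poly (fun p : (Con × ℕ) × ℕ × ℕ × ℕ => p.2.1) := Poly.fst (Poly.snd Poly.id)
    have j : Poly (fun p : (Con × ℕ) × ℕ × ℕ × ℕ => p.2.2.1) :=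
      Poly.fst (Poly.snd (Poly.snd Poly.id))
    have l : Poly (fun p : (Con × ℕ) × ℕ × ℕ × ℕ => p.2.2.2) :=
      Poly.snd (Poly.snd (Poly.snd Poly.id))
    exact Poly.append (Poly.append (Poly.append (poly_vbase i) (poly_vbase j)) (poly_vbase l))
      (Poly.cons (poly_tri3 (Poly.const 0) (Poly.const 1) (poly_kP k))
      (Poly.cons (poly_tri3 (Poly.const 3) (poly_wP j) (poly_kP k))
      (Poly.cons (poly_tri3 (poly_vP i) (poly_kP k) (poly_wP l)) (Poly.const _))))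

theorem poly_tri {S : α → List Con} (hS : Poly S) : Poly (fun a => tri (S a)) :=
  Poly.append (Poly.const _) (Poly.flatMap (F := fun _ (p : Con × ℕ) => triC p.2 p.1)
    (Poly.zipIdx hS) (poly_triC.comp (Poly.snd Poly.id)))

theorem gads_eq : ∀ (T : List (ℕ × ℕ × ℕ)) (g : ℕ),
    gads g T = (T.zipIdx g).flatMap fun p => gadC p.2 p.1
  | [], g => rfl
  | t :: T, g => by rw [gads, gads_eq T (g + 1), List.zipIdx_cons, List.flatMap_cons]

theorem poly_gadC : Poly (fun p : (ℕ × ℕ × ℕ) × ℕ => gadC p.2 p.1) := by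
  have g : Poly (fun p : (ℕ × ℕ × ℕ) × ℕ => p.2) := Poly.snd Poly.id
  have a : Poly (fun p : (ℕ × ℕ × ℕ) × ℕ => 2 * p.1.1) :=
    Poly.mul (Poly.const 2) (Poly.fst (Poly.fst Poly.id))
  have b : Poly (fun p : (ℕ × ℕ × ℕ) × ℕ => 2 * p.1.2.1) :=
    Poly.mul (Poly.const 2) (Poly.fst (Poly.snd (Poly.fst Poly.id)))
  have c : Poly (fun p : (ℕ × ℕ × ℕ) × ℕ => 2 * p.1.2.2) :=
    Poly.mul (Poly.const 2) (Poly.snd (Poly.snd (Poly.fst Poly.id)))
  have l : ∀ n, Poly (fun p : (ℕ × ℕ × ℕ) × ℕ => n + 6 * p.2) := fun n => poly_lin n 6 g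
  have o : ∀ n, Poly (fun p : (ℕ × ℕ × ℕ) × ℕ => n + 8 * p.2) := fun n => poly_lin n 8 g
  exact Poly.cons (poly_tri3 (l 8) (l 9) a) (Poly.cons (poly_tri3 (l 11) (l 12) a)
    (Poly.cons (poly_tri3 (l 9) (l 10) b) (Poly.cons (poly_tri3 (l 12) (l 13) b)
    (Poly.cons (poly_tri3 (l 8) (l 10) c) (Poly.cons (poly_tri3 (l 11) (l 13) c)
    (Poly.cons (poly_tri3 (l 8) (l 11) (o 9)) (Poly.cons (poly_tri3 (l 9) (l 12) (o 9))
    (Poly.cons (poly_tri3 (l 10) (l 13) (o 9)) (Poly.cons (poly_tri3 (l 8) (l 12) (o 11))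
    (Poly.cons (poly_tri3 (l 9) (l 13) (o 13)) (Poly.cons (poly_tri3 (l 10) (l 11) (o 15))
    (Poly.const _))))))))))))

theorem poly_graph {T : α → List (ℕ × ℕ × ℕ)} (hT : Poly T) : Poly (fun a => graph (T a)) := by
  have h1 : Poly (fun a => gads 0 (T a)) :=
    (Poly.flatMap (F := fun _ (p : (ℕ × ℕ × ℕ) × ℕ) => gadC p.2 p.1) (Poly.zipIdx hT)
      (poly_gadC.comp (Poly.snd Poly.id))).congr fun a => (gads_eq _ _).symm
  exact Poly.pair (poly_lin 8 6 (Poly.length hT)) (Poly.append (Poly.const _) h1)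

/-- The whole reduction. -/
def red (S : List Con) : CGraph := graph (tri (pos S))

theorem poly_red : Poly red := poly_graph (poly_tri (poly_pos Poly.id))

end Pool.Agent.NPC.ER.Faith
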