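import Pool.Agent.H606R2.Faith.VS

/-!
# Generic vectors

Properties that hold for almost every vector (Lebesgue measure of `ℝ³`) are the generic ones.
-/

namespace Pool.Agent.NPC.ER.Faith

open MeasureTheory

theorem dt_add (w a b : V3) : dt w (a + b) = dt w a + dt w b := by
  simp only [dt, Pi.add_apply]; ring

theorem dt_self_ne {w : V3} (hw : w ≠ 0) : dt w w ≠ 0 := by
  intro h
  apply hw
  unfold dt at h
  have h1 : w 0 = 0 ∧ w 1 = 0 ∧ w 2 = 0 := by
    refine ⟨?_, ?_, ?_⟩ <;> nlinarith [sq_nonneg (w 0), sq_nonneg (w 1), sq_nonneg (w 2)]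
  funext i
  fin_cases i
  · exact h1.1
  · exact h1.2.1
  · exact h1.2.2

/-- The linear functional `dt w`. -/
def dtL (w : V3) : V3 →ₗ[ℝ] ℝ where
  toFun a := dt w a
  map_add' a b := dt_add w a b
  map_smul' c a := by simp only [dt, Pi.smul_apply, smul_eq_mul, RingHom.id_apply]; ring

/-- A nonconstant affine functional does not vanish almost everywhere. -/
theorem gen_ne {w : V3} (hw : w ≠ 0) (c : ℝ) : ∀ᵐ A : V3, dt w A ≠ c := by
  set A₀ : V3 := (c / dt w w) • w with hA₀
  have h0 : dt w A₀ = c := by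
    have : dt w A₀ = (c / dt w w) * dt w w := (dtL w).map_smul _ _
    rw [this, div_mul_cancel₀ _ (dt_self_ne hw)]
  have h1 : {A : V3 | dt w A = c} ⊆ (AffineSubspace.mk' A₀ (LinearMap.ker (dtL w)) : Set V3) := by
    intro A hA
    rw [SetLike.mem_coe, AffineSubspace.mem_mk', vsub_eq_sub, LinearMap.mem_ker, map_sub]
    change dt w A - dt w A₀ = 0
    rw [h0, hA.out, sub_self]
  have h2 : AffineSubspace.mk' A₀ (LinearMap.ker (dtL w)) ≠ ⊤ := by
    intro h
    have h3 : A₀ + w ∈ AffineSubspace.mk' A₀ (LinearMap.ker (dtL w)) := by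
      rw [h]; exact AffineSubspace.mem_top ℝ V3 _
    rw [AffineSubspace.mem_mk', vsub_eq_sub, add_sub_cancel_left, LinearMap.mem_ker] at h3
    exact dt_self_ne hw h3
  have h3 := Measure.addHaar_affineSubspace (volume : Measure V3) _ h2
  have h4 : volume {A : V3 | dt w A = c} = 0 := measure_mono_null h1 h3
  rw [ae_iff]
  simpa using h4

theorem gen_coord (i : Fin 3) (c : ℝ) : ∀ᵐ A : V3, A i ≠ c := by
  have h : (Pi.single i 1 : V3) ≠ 0 := by
    intro h
    have := congrFun h i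
    simp at this
  filter_upwards [gen_ne h c] with A hA
  intro h1
  apply hA
  rw [← h1]
  fin_cases i <;> simp [dt]

theorem exists_third {a b : V3} (h : Ind a b) : ∃ c, det3 a b c ≠ 0 := ind_iff.1 h

theorem exists_ind {a : V3} (h : a ≠ 0) : ∃ b, Ind a b := by
  by_contra hn
  push Not at hn
  apply h
  have h0 : ∀ b, cr a b = 0 := fun b => by
    by_contra hb
    exact hn b hb
  have e1 := h0 ![1, 0, 0]
  have e2 := h0 ![0, 1, 0]
  have f1 := congrFun e1 1
  have f2 := congrFun e1 2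
  have f3 := congrFun e2 2
  rw [cr_1] at f1
  rw [cr_2] at f2 f3
  funext i
  fin_cases i
  · simpa using f3
  · simpa using f2
  · simpa using f1

/-- A configuration with nonzero vectors can be moved to the affine plane. -/
theorem exists_finite_conf {T : List (ℕ × ℕ × ℕ)} {q : ℕ → V3} (h : Conf T q)
    (h0 : ∀ i, q i ≠ 0) : ∃ q' : ℕ → V3, Conf T q' ∧ ∀ i, q' i 2 ≠ 0 := by
  have h1 : ∀ᵐ φ : V3, (∀ i, dt (q i) φ ≠ 0) ∧ φ 2 ≠ 0 :=
    (ae_all_iff.2 fun i => gen_ne (h0 i) 0).and (gen_coord 2 0)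
  obtain ⟨φ, hφ, hφ2⟩ := h1.exists
  set L : V3 → V3 := fun a => ![a 0, a 1, dt a φ] with hL
  have hdet : ∀ a b c, det3 (L a) (L b) (L c) = φ 2 * det3 a b c := by
    intro a b c
    simp only [hL, det3, dt, Matrix.cons_val_zero, Matrix.cons_val_one, Matrix.cons_val]
    ring
  have hind : ∀ a b, Ind a b → Ind (L a) (L b) := by
    intro a b hab
    obtain ⟨c, hc⟩ := ind_iff.1 hab
    refine ind_iff.2 ⟨L c, ?_⟩
    rw [hdet]
    exact mul_ne_zero hφ2 hc
  refine ⟨fun i => L (q i), ⟨fun t ht => ?_, ?_⟩, fun i => ?_⟩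
  · obtain ⟨e1, e2, e3, e4⟩ := h.1 t ht
    exact ⟨by rw [hdet, e1, mul_zero], hind _ _ e2, hind _ _ e3, hind _ _ e4⟩
  · rw [hdet]
    exact mul_ne_zero hφ2 h.2
  · simpa [hL] using hφ i

/-! ### General position -/

/-- The first `N` points are in general position (also with respect to the points `q`) and
finite. -/
structure GP (q : ℕ → V3) (p : ℕ → V3) (N : ℕ) : Prop where
  fin : ∀ i, i < N → p i 2 ≠ 0
  ind : ∀ i m, i < N → Ind (p i) (q m)
  pair : ∀ i j, i < j → j < N → Ind (p i) (p j)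
  trip : ∀ i j k, i < j → j < k → k < N → det3 (p i) (p j) (p k) ≠ 0

/-- Adding points. -/
def ext (p : ℕ → V3) (N : ℕ) (f : ℕ → V3) (i : ℕ) : V3 := if i < N then p i else f (i - N)

theorem ext_old {p : ℕ → V3} {N : ℕ} {f : ℕ → V3} {i : ℕ} (h : i < N) : ext p N f i = p i :=
  if_pos h

theorem ext_new (p : ℕ → V3) (N : ℕ) (f : ℕ → V3) (r : ℕ) : ext p N f (N + r) = f r := by
  unfold ext
  rw [if_neg (by omega)]
  congr 1
  omega

/-- A family of `m` points depending on a generic vector. -/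
structure PUnit (q : ℕ → V3) (m : ℕ) (y : ℕ → V3 → V3) : Prop where
  lin : ∀ r, r < m → ∀ w : V3, w ≠ 0 → ∀ᵐ A : V3, dt w (y r A) ≠ 0
  pair : ∀ r s, r < s → s < m → ∀ a : V3, (∀ i, Ind a (q i)) →
    ∀ᵐ A : V3, det3 a (y r A) (y s A) ≠ 0
  trip : ∀ r s t, r < s → s < t → t < m → ∀ᵐ A : V3, det3 (y r A) (y s A) (y t A) ≠ 0

theorem exists_gen (q : ℕ → V3) (hq : ∀ i, q i 2 ≠ 0) : ∃ a : V3, ∀ i, Ind a (q i) := by
  have h : ∀ i, ∃ b, Ind (q i) b := fun i => exists_ind (by
    intro h; exact hq i (by rw [h]; rfl))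
  choose b hb using h
  have h1 : ∀ᵐ A : V3, ∀ i, dt (cr (q i) (b i)) A ≠ 0 :=
    ae_all_iff.2 fun i => gen_ne (hb i) 0
  obtain ⟨A, hA⟩ := h1.exists
  refine ⟨A, fun i => ?_⟩
  have := hA i
  rw [← det3_eq_dt] at this
  rw [← det3_rot'] at this
  exact Ind.of_det this

theorem GP.ext_unit {q : ℕ → V3} (hq : ∀ i, q i 2 ≠ 0) {p : ℕ → V3} {N m : ℕ}
    {y : ℕ → V3 → V3} (hp : GP q p N) (hy : PUnit q m y) :
    ∀ᵐ A : V3, GP q (ext p N (fun r => y r A)) (N + m) := by
  obtain ⟨a₀, ha₀⟩ := exists_gen q hq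
  have h3 : (![0, 0, 1] : V3) ≠ 0 := by
    intro h
    have := congrFun h 2
    simp at this
  have a1 : ∀ᵐ A : V3, ∀ r, r < m → y r A 2 ≠ 0 := by
    refine ae_all_iff.2 fun r => ?_
    by_cases hr : r < m
    · filter_upwards [hy.lin r hr _ h3] with A hA _
      simpa [dt] using hA
    · exact Filter.Eventually.of_forall fun A h => absurd h hr
  have a2 : ∀ᵐ A : V3, ∀ r i, r < m → Ind (y r A) (q i) := by
    refine ae_all_iff.2 fun r => ae_all_iff.2 fun i => ?_
    by_cases hr : r < m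
    · obtain ⟨b, hb⟩ := exists_ind (a := q i) (by intro h; exact hq i (by rw [h]; rfl))
      filter_upwards [hy.lin r hr _ hb] with A hA _
      rw [← det3_eq_dt, ← det3_rot'] at hA
      exact Ind.of_det hA
    · exact Filter.Eventually.of_forall fun A h => absurd h hr
  have a3 : ∀ᵐ A : V3, ∀ i r, i < N → r < m → Ind (p i) (y r A) := by
    refine ae_all_iff.2 fun i => ae_all_iff.2 fun r => ?_
    by_cases hr : i < N ∧ r < m
    · obtain ⟨b, hb⟩ := exists_ind (a := p i) (by
        intro h; exact hp.fin i hr.1 (by rw [h]; rfl))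
      filter_upwards [hy.lin r hr.2 _ hb] with A hA _ _
      rw [← det3_eq_dt, ← det3_rot'] at hA
      exact (Ind.of_det hA).symm
    · exact Filter.Eventually.of_forall fun A h h' => absurd ⟨h, h'⟩ hr
  have a4 : ∀ᵐ A : V3, ∀ r s, r < s → s < m → Ind (y r A) (y s A) := by
    refine ae_all_iff.2 fun r => ae_all_iff.2 fun s => ?_
    by_cases hr : r < s ∧ s < m
    · filter_upwards [hy.pair r s hr.1 hr.2 a₀ ha₀] with A hA _ _
      rw [← det3_rot] at hA
      exact Ind.of_det hA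
    · exact Filter.Eventually.of_forall fun A h h' => absurd ⟨h, h'⟩ hr
  have a5 : ∀ᵐ A : V3, ∀ i j r, i < j → j < N → r < m → det3 (p i) (p j) (y r A) ≠ 0 := by
    refine ae_all_iff.2 fun i => ae_all_iff.2 fun j => ae_all_iff.2 fun r => ?_
    by_cases hr : i < j ∧ j < N ∧ r < m
    · filter_upwards [hy.lin r hr.2.2 _ (hp.pair i j hr.1 hr.2.1)] with A hA _ _ _
      rwa [det3_eq_dt]
    · exact Filter.Eventually.of_forall fun A h h' h'' => absurd ⟨h, h', h''⟩ hr
  have a6 : ∀ᵐ A : V3, ∀ i r s, i < N → r < s → s < m → det3 (p i) (y r A) (y s A) ≠ 0 := by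
    refine ae_all_iff.2 fun i => ae_all_iff.2 fun r => ae_all_iff.2 fun s => ?_
    by_cases hr : i < N ∧ r < s ∧ s < m
    · filter_upwards [hy.pair r s hr.2.1 hr.2.2 (p i) (fun m => hp.ind i m hr.1)] with A hA _ _ _
      exact hA
    · exact Filter.Eventually.of_forall fun A h h' h'' => absurd ⟨h, h', h''⟩ hr
  have a7 : ∀ᵐ A : V3, ∀ r s t, r < s → s < t → t < m →
      det3 (y r A) (y s A) (y t A) ≠ 0 := by
    refine ae_all_iff.2 fun r => ae_all_iff.2 fun s => ae_all_iff.2 fun t => ?_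
    by_cases hr : r < s ∧ s < t ∧ t < m
    · filter_upwards [hy.trip r s t hr.1 hr.2.1 hr.2.2] with A hA _ _ _
      exact hA
    · exact Filter.Eventually.of_forall fun A h h' h'' => absurd ⟨h, h', h''⟩ hr
  filter_upwards [a1, a2, a3, a4, a5, a6, a7] with A b1 b2 b3 b4 b5 b6 b7
  refine ⟨fun i hi => ?_, fun i k hi => ?_, fun i j hij hj => ?_, fun i j k hij hjk hk => ?_⟩
  · by_cases h : i < N
    · rw [ext_old h]; exact hp.fin i h
    · obtain ⟨r, rfl⟩ : ∃ r, i = N + r := ⟨i - N, by omega⟩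
      rw [ext_new]; exact b1 r (by omega)
  · by_cases h : i < N
    · rw [ext_old h]; exact hp.ind i k h
    · obtain ⟨r, rfl⟩ : ∃ r, i = N + r := ⟨i - N, by omega⟩
      rw [ext_new]; exact b2 r k (by omega)
  · by_cases h : j < N
    · rw [ext_old h, ext_old (hij.trans h)]; exact hp.pair i j hij h
    · obtain ⟨s, rfl⟩ : ∃ s, j = N + s := ⟨j - N, by omega⟩
      by_cases h' : i < N
      · rw [ext_old h', ext_new]; exact b3 i s h' (by omega)
      · obtain ⟨r, rfl⟩ : ∃ r, i = N + r := ⟨i - N, by omega⟩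
        rw [ext_new, ext_new]; exact b4 r s (by omega) (by omega)
  · by_cases h : k < N
    · rw [ext_old h, ext_old (hjk.trans h), ext_old (hij.trans (hjk.trans h))]
      exact hp.trip i j k hij hjk h
    · obtain ⟨t, rfl⟩ : ∃ t, k = N + t := ⟨k - N, by omega⟩
      by_cases h' : j < N
      · rw [ext_old h', ext_old (hij.trans h'), ext_new]; exact b5 i j t hij h' (by omega)
      · obtain ⟨s, rfl⟩ : ∃ s, j = N + s := ⟨j - N, by omega⟩
        by_cases h'' : i < N
        · rw [ext_old h'', ext_new, ext_new]; exact b6 i s t h'' (by omega) (by omega)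
        · obtain ⟨r, rfl⟩ : ∃ r, i = N + r := ⟨i - N, by omega⟩
          rw [ext_new, ext_new, ext_new]; exact b7 r s t (by omega) (by omega) (by omega)

/-! ### The two kinds of units -/

/-- A triangle whose sides pass through three given collinear points. -/
def triU (c₁ c₂ : V3) (r : ℕ) (A : V3) : V3 :=
  if r = 0 then A else if r = 1 then A + c₁ else A + c₂

theorem punit_tri {q : ℕ → V3} {c₁ c₂ : V3} (h : Ind c₁ c₂)
    (h1 : ∀ a : V3, (∀ i, Ind a (q i)) → Ind a c₁)
    (h2 : ∀ a : V3, (∀ i, Ind a (q i)) → Ind a c₂)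
    (h3 : ∀ a : V3, (∀ i, Ind a (q i)) → Ind a (c₂ - c₁)) : PUnit q 3 (triU c₁ c₂) := by
  have hgen : ∀ (w c : V3), w ≠ 0 → ∀ᵐ A : V3, dt w (A + c) ≠ 0 := by
    intro w c hw
    filter_upwards [gen_ne hw (-dt w c)] with A hA h4
    apply hA
    rw [dt_add] at h4
    linarith
  refine ⟨fun r hr w hw => ?_, fun r s hrs hs a ha => ?_, fun r s t hrs hst ht => ?_⟩
  · unfold triU
    split_ifs
    · exact gen_ne hw 0
    · exact hgen w c₁ hw
    · exact hgen w c₂ hw
  · have hs' : (r = 0 ∧ s = 1) ∨ (r = 0 ∧ s = 2) ∨ (r = 1 ∧ s = 2) := by omega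
    rcases hs' with ⟨rfl, rfl⟩ | ⟨rfl, rfl⟩ | ⟨rfl, rfl⟩
    · filter_upwards [gen_ne (h1 a ha) 0] with A hA h4
      apply hA
      rw [← det3_eq_dt]
      simp only [triU, if_true, one_ne_zero, if_false] at h4
      have : det3 a A (A + c₁) = - det3 a c₁ A := by
        simp only [det3, Pi.add_apply]; ring
      linarith
    · filter_upwards [gen_ne (h2 a ha) 0] with A hA h4
      apply hA
      rw [← det3_eq_dt]
      simp only [triU, if_true] at h4
      norm_num at h4
      have : det3 a A (A + c₂) = - det3 a c₂ A := by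
        simp only [det3, Pi.add_apply]; ring
      linarith
    · filter_upwards [hgen _ c₁ (h3 a ha)] with A hA h4
      apply hA
      rw [← det3_eq_dt]
      simp only [triU] at h4
      norm_num at h4
      have : det3 a (A + c₁) (A + c₂) = - det3 a (c₂ - c₁) (A + c₁) := by
        simp only [det3, Pi.add_apply, Pi.sub_apply]; ring
      linarith
  · obtain ⟨rfl, rfl, rfl⟩ : r = 0 ∧ s = 1 ∧ t = 2 := by omega
    filter_upwards [gen_ne h 0] with A hA h4
    apply hA
    rw [← det3_eq_dt]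
    simp only [triU] at h4
    norm_num at h4
    have : det3 A (A + c₁) (A + c₂) = det3 c₁ c₂ A := by
      simp only [det3, Pi.add_apply]; ring
    linarith

/-- A complete quadrangle with three given diagonal points. -/
def quadU (X Y O : V3) (r : ℕ) (A : V3) : V3 :=
  if r = 0 then cmb X Y O (A 0) (A 1) (A 2) else
  if r = 1 then cmb X Y O (-A 0) (A 1) (A 2) else
  if r = 2 then cmb X Y O (A 0) (-A 1) (A 2) else cmb X Y O (A 0) (A 1) (-A 2)

theorem punit_quad {q : ℕ → V3} (h : det3 (q 0) (q 1) (q 2) ≠ 0) :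
    PUnit q 4 (quadU (q 0) (q 1) (q 2)) := by
  set X := q 0
  set Y := q 1
  set O := q 2
  have key : ∀ (w : V3) (x y o : ℝ), w ≠ 0 → x ≠ 0 → y ≠ 0 → o ≠ 0 →
      ∀ᵐ A : V3, dt w (cmb X Y O (x * A 0) (y * A 1) (o * A 2)) ≠ 0 := by
    intro w x y o hw hx hy ho
    have hw' : (![x * dt w X, y * dt w Y, o * dt w O] : V3) ≠ 0 := by
      intro h0
      have e0 : x * dt w X = 0 := by have := congrFun h0 0; simpa using this
      have e1 : y * dt w Y = 0 := by have := congrFun h0 1; simpa using this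
      have e2 : o * dt w O = 0 := by have := congrFun h0 2; simpa using this
      have f0 := (mul_eq_zero.1 e0).resolve_left hx
      have f1 := (mul_eq_zero.1 e1).resolve_left hy
      have f2 := (mul_eq_zero.1 e2).resolve_left ho
      obtain ⟨a, b, c, hc⟩ := exists_cmb h w
      apply dt_self_ne hw
      have : dt w w = a * dt w X + b * dt w Y + c * dt w O := by
        conv_lhs => rw [hc]
        simp only [hc, cmb, dt, Pi.add_apply, Pi.smul_apply, smul_eq_mul]
        ring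
      rw [this, f0, f1, f2]
      ring
    filter_upwards [gen_ne hw' 0] with A hA h0
    apply hA
    rw [← h0]
    simp only [cmb, dt, Pi.add_apply, Pi.smul_apply, smul_eq_mul, Matrix.cons_val_zero,
      Matrix.cons_val_one, Matrix.cons_val]
    ring
  have hlin : ∀ r, ∀ w : V3, w ≠ 0 → ∀ᵐ A : V3, dt w (quadU X Y O r A) ≠ 0 := by
    intro r w hw
    unfold quadU
    split_ifs
    · filter_upwards [key w 1 1 1 hw one_ne_zero one_ne_zero one_ne_zero] with A hA
      simpa using hA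
    · filter_upwards [key w (-1) 1 1 hw (by norm_num) one_ne_zero one_ne_zero] with A hA
      simpa using hA
    · filter_upwards [key w 1 (-1) 1 hw one_ne_zero (by norm_num) one_ne_zero] with A hA
      simpa using hA
    · filter_upwards [key w 1 1 (-1) hw one_ne_zero one_ne_zero (by norm_num)] with A hA
      simpa using hA
  have e0 : ∀ A, quadU X Y O 0 A = cmb X Y O (A 0) (A 1) (A 2) := fun A => rfl
  have e1 : ∀ A, quadU X Y O 1 A = cmb X Y O (-A 0) (A 1) (A 2) := fun A => rfl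
  have e2 : ∀ A, quadU X Y O 2 A = cmb X Y O (A 0) (-A 1) (A 2) := fun A => rfl
  have e3 : ∀ A, quadU X Y O 3 A = cmb X Y O (A 0) (A 1) (-A 2) := fun A => rfl
  refine ⟨fun r _ w hw => hlin r w hw, fun r s hrs hs a ha => ?_, fun r s t hrs hst ht => ?_⟩
  · have hs' : (r = 0 ∧ s = 1) ∨ (r = 0 ∧ s = 2) ∨ (r = 0 ∧ s = 3) ∨ (r = 1 ∧ s = 2) ∨
      (r = 1 ∧ s = 3) ∨ (r = 2 ∧ s = 3) := by omega
    rcases hs' with ⟨rfl, rfl⟩ | ⟨rfl, rfl⟩ | ⟨rfl, rfl⟩ | ⟨rfl, rfl⟩ | ⟨rfl, rfl⟩ | ⟨rfl, rfl⟩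
    · filter_upwards [hlin 0 _ (ha 0), gen_coord 0 0] with A hA hA0
      have : det3 a (quadU X Y O 0 A) (quadU X Y O 1 A) =
          2 * A 0 * dt (cr a X) (quadU X Y O 0 A) := by
        rw [← det3_eq_dt, e0, e1]
        simp only [det3, cmb, Pi.add_apply, Pi.smul_apply, smul_eq_mul]; ring
      rw [this]
      exact mul_ne_zero (mul_ne_zero two_ne_zero hA0) hA
    · filter_upwards [hlin 0 _ (ha 1), gen_coord 1 0] with A hA hA0
      have : det3 a (quadU X Y O 0 A) (quadU X Y O 2 A) =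
          2 * A 1 * dt (cr a Y) (quadU X Y O 0 A) := by
        rw [← det3_eq_dt, e0, e2]
        simp only [det3, cmb, Pi.add_apply, Pi.smul_apply, smul_eq_mul]; ring
      rw [this]
      exact mul_ne_zero (mul_ne_zero two_ne_zero hA0) hA
    · filter_upwards [hlin 0 _ (ha 2), gen_coord 2 0] with A hA hA0
      have : det3 a (quadU X Y O 0 A) (quadU X Y O 3 A) =
          2 * A 2 * dt (cr a O) (quadU X Y O 0 A) := by
        rw [← det3_eq_dt, e0, e3]
        simp only [det3, cmb, Pi.add_apply, Pi.smul_apply, smul_eq_mul]; ring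
      rw [this]
      exact mul_ne_zero (mul_ne_zero two_ne_zero hA0) hA
    · filter_upwards [hlin 1 _ (ha 2), gen_coord 2 0] with A hA hA0
      have : det3 a (quadU X Y O 1 A) (quadU X Y O 2 A) =
          -(2 * A 2 * dt (cr a O) (quadU X Y O 1 A)) := by
        rw [← det3_eq_dt, e1, e2]
        simp only [det3, cmb, Pi.add_apply, Pi.smul_apply, smul_eq_mul]; ring
      rw [this]
      exact neg_ne_zero.2 (mul_ne_zero (mul_ne_zero two_ne_zero hA0) hA)
    · filter_upwards [hlin 1 _ (ha 1), gen_coord 1 0] with A hA hA0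
      have : det3 a (quadU X Y O 1 A) (quadU X Y O 3 A) =
          -(2 * A 1 * dt (cr a Y) (quadU X Y O 1 A)) := by
        rw [← det3_eq_dt, e1, e3]
        simp only [det3, cmb, Pi.add_apply, Pi.smul_apply, smul_eq_mul]; ring
      rw [this]
      exact neg_ne_zero.2 (mul_ne_zero (mul_ne_zero two_ne_zero hA0) hA)
    · filter_upwards [hlin 2 _ (ha 0), gen_coord 0 0] with A hA hA0
      have : det3 a (quadU X Y O 2 A) (quadU X Y O 3 A) =
          -(2 * A 0 * dt (cr a X) (quadU X Y O 2 A)) := by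
        rw [← det3_eq_dt, e2, e3]
        simp only [det3, cmb, Pi.add_apply, Pi.smul_apply, smul_eq_mul]; ring
      rw [this]
      exact neg_ne_zero.2 (mul_ne_zero (mul_ne_zero two_ne_zero hA0) hA)
  · have hs' : (r = 0 ∧ s = 1 ∧ t = 2) ∨ (r = 0 ∧ s = 1 ∧ t = 3) ∨ (r = 0 ∧ s = 2 ∧ t = 3) ∨
      (r = 1 ∧ s = 2 ∧ t = 3) := by omega
    rcases hs' with ⟨rfl, rfl, rfl⟩ | ⟨rfl, rfl, rfl⟩ | ⟨rfl, rfl, rfl⟩ | ⟨rfl, rfl, rfl⟩
    all_goals
      filter_upwards [gen_coord 0 0, gen_coord 1 0, gen_coord 2 0] with A h0 h1 h2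
      simp only [e0, e1, e2, e3]
      rw [det3_cmb]
      refine mul_ne_zero ?_ h
      have h3 : A 0 * A 1 * A 2 ≠ 0 := mul_ne_zero (mul_ne_zero h0 h1) h2
      intro h4
      apply h3
      linarith

end Pool.Agent.NPC.ER.Faith
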