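import Pool.Agent.H606R2.Faith.Vec

/-!
# Lines of the plane and determinants
-/

namespace Pool.Agent.NPC.ER.Faith

/-- Homogeneous coordinates of a point of the plane. -/
def hom (p : ℝ × ℝ) : V3 := ![p.1, p.2, 1]

/-- The point of the plane with given homogeneous coordinates. -/
noncomputable def aff (v : V3) : ℝ × ℝ := (v 0 / v 2, v 1 / v 2)

theorem hom_0 (p : ℝ × ℝ) : hom p 0 = p.1 := rfl
theorem hom_1 (p : ℝ × ℝ) : hom p 1 = p.2 := rfl
theorem hom_2 (p : ℝ × ℝ) : hom p 2 = 1 := rfl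

theorem hom_ne_zero (p : ℝ × ℝ) : hom p ≠ 0 := by
  intro h
  have := congrFun h 2
  simp [hom] at this

theorem det3_hom_aff {a b c : V3} (ha : a 2 ≠ 0) (hb : b 2 ≠ 0) (hc : c 2 ≠ 0) :
    det3 (hom (aff a)) (hom (aff b)) (hom (aff c)) = det3 a b c / (a 2 * b 2 * c 2) := by
  simp only [det3, hom_0, hom_1, hom_2, aff]
  field_simp

theorem mem_line {a b q : ℝ × ℝ} : q ∈ line[ℝ, a, b] ↔ ∃ t : ℝ, AffineMap.lineMap a b t = q :=
  mem_affineSpan_pair_iff_exists_lineMap_eq

theorem comb_of_mem_line {a b q : ℝ × ℝ} (h : q ∈ line[ℝ, a, b]) :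
    ∃ s t : ℝ, hom q = s • hom a + t • hom b := by
  obtain ⟨t, rfl⟩ := mem_line.1 h
  refine ⟨1 - t, t, ?_⟩
  funext i
  fin_cases i
  · simp [hom, AffineMap.lineMap_apply]; ring
  · simp [hom, AffineMap.lineMap_apply]; ring
  · simp [hom]

theorem mem_line_of_det {a b q : ℝ × ℝ} (hab : a ≠ b) (h : det3 (hom a) (hom b) (hom q) = 0) :
    q ∈ line[ℝ, a, b] := by
  simp only [det3, hom_0, hom_1, hom_2] at h
  rw [mem_line]
  by_cases h1 : a.1 = b.1
  · have h2 : b.2 - a.2 ≠ 0 := by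
      intro h2
      apply hab
      exact Prod.ext h1 (by linarith)
    refine ⟨(q.2 - a.2) / (b.2 - a.2), ?_⟩
    have h3 : q.1 = a.1 := by
      have : (b.2 - a.2) * (q.1 - a.1) = 0 := by rw [h1] at h ⊢; linarith
      rcases mul_eq_zero.1 this with h4 | h4
      · exact absurd h4 h2
      · linarith
    refine Prod.ext ?_ ?_
    · simp [AffineMap.lineMap_apply, h3, h1]
    · simp only [AffineMap.lineMap_apply, vsub_eq_sub, Prod.snd_sub, vadd_eq_add, Prod.snd_add,
        Prod.smul_snd, smul_eq_mul]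
      field_simp
      ring
  · have h2 : b.1 - a.1 ≠ 0 := fun h2 => h1 (by linarith)
    refine ⟨(q.1 - a.1) / (b.1 - a.1), ?_⟩
    refine Prod.ext ?_ ?_
    · simp only [AffineMap.lineMap_apply, vsub_eq_sub, Prod.fst_sub, vadd_eq_add, Prod.fst_add,
        Prod.smul_fst, smul_eq_mul]
      field_simp
      ring
    · simp only [AffineMap.lineMap_apply, vsub_eq_sub, Prod.snd_sub, vadd_eq_add, Prod.snd_add,
        Prod.smul_snd, smul_eq_mul]
      field_simp
      linarith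

theorem det_of_mem_line {a b q : ℝ × ℝ} (h : q ∈ line[ℝ, a, b]) :
    det3 (hom a) (hom b) (hom q) = 0 := by
  obtain ⟨s, t, e⟩ := comb_of_mem_line h
  rw [e]
  simp only [det3, Pi.add_apply, Pi.smul_apply, smul_eq_mul]
  ring

theorem line_le {a b c d : ℝ × ℝ} (hc : c ∈ line[ℝ, a, b]) (hd : d ∈ line[ℝ, a, b]) :
    line[ℝ, c, d] ≤ line[ℝ, a, b] := by
  rw [affineSpan_le]
  rintro x (rfl | rfl)
  · exact hc
  · exact hd

/-- Three pairwise distinct points with vanishing determinant span the same line. -/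
theorem line_eq {a b c : ℝ × ℝ} (hab : a ≠ b) (hbc : b ≠ c)
    (h : det3 (hom a) (hom b) (hom c) = 0) : line[ℝ, a, b] = line[ℝ, b, c] := by
  apply le_antisymm
  · refine line_le (mem_line_of_det hbc ?_) (left_mem_affineSpan_pair ℝ b c)
    rw [det3_rot]; exact h
  · exact line_le (right_mem_affineSpan_pair ℝ a b) (mem_line_of_det hab h)

/-- Distinct lines through `b` give a nonvanishing determinant. -/
theorem det_ne_of_lines {a b c : ℝ × ℝ} (hab : a ≠ b) (hbc : b ≠ c)
    (h : line[ℝ, a, b] ≠ line[ℝ, b, c]) : det3 (hom a) (hom b) (hom c) ≠ 0 :=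
  fun h0 => h (line_eq hab hbc h0)

theorem line_comm (a b : ℝ × ℝ) : line[ℝ, a, b] = line[ℝ, b, a] := by
  rw [Set.pair_comm]

theorem aff_injective {a b : V3} (ha : a 2 ≠ 0) (hb : b 2 ≠ 0) (h : Ind a b) :
    aff a ≠ aff b := by
  intro h0
  obtain ⟨c, hc⟩ := ind_iff.1 h
  apply hc
  have h1 : a 0 / a 2 = b 0 / b 2 := congrArg Prod.fst h0
  have h2 : a 1 / a 2 = b 1 / b 2 := congrArg Prod.snd h0
  rw [div_eq_div_iff ha hb] at h1 h2
  have h3 : a 0 * b 1 = a 1 * b 0 := by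
    have : a 2 * (a 0 * b 1 - a 1 * b 0) = 0 := by
      linear_combination (-(a 0)) * h2 + (a 1) * h1
    rcases mul_eq_zero.1 this with h4 | h4
    · exact absurd h4 ha
    · linarith
  simp only [det3]
  linear_combination (c 2) * h3 - (c 1) * h1 + (c 0) * h2

end Pool.Agent.NPC.ER.Faith
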