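import Pool.Agent.H606R2.Faith.Graph
import Pool.Agent.H606R2.Faith.Plane
import Pool.Agent.H606R2.Faith.Gen

/-!
# From a configuration to a faithful drawing
-/

namespace Pool.Agent.NPC.ER.Faith

theorem GP.trip' {q p : ℕ → V3} {N : ℕ} (h : GP q p N) {i j k : ℕ} (hi : i < N) (hj : j < N)
    (hk : k < N) (hij : i ≠ j) (hik : i ≠ k) (hjk : j ≠ k) : det3 (p i) (p j) (p k) ≠ 0 := by
  rcases lt_or_gt_of_ne hij with h1 | h1 <;> rcases lt_or_gt_of_ne hik with h2 | h2 <;>
    rcases lt_or_gt_of_ne hjk with h3 | h3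
  · exact h.trip i j k h1 h3 hk
  · rw [det3_swap₂₃]; exact neg_ne_zero.2 (h.trip i k j h2 h3 hj)
  · omega
  · rw [← det3_rot]; intro h0; exact h.trip k i j h2 h1 hj (by rw [← h0, det3_rot, det3_rot])
  · rw [det3_swap₁₂]; exact neg_ne_zero.2 (h.trip j i k h1 h2 hk)
  · omega
  · rw [← det3_rot]; exact h.trip j k i h3 h2 hi
  · rw [det3_swap₁₃]; exact neg_ne_zero.2 (h.trip k j i h3 h1 hi)

/-- The invariant of the construction, after `k` prisms. -/
structure Stage (q : ℕ → V3) (T : List (ℕ × ℕ × ℕ)) (k : ℕ) (p : ℕ → V3) : Prop where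
  gp : GP q p (8 + 6 * k)
  c0 : ∀ e ∈ gad0, ∀ m, e.2.2 = 2 * m → det3 (p e.1) (p e.2.1) (q m) = 0
  cg : ∀ g, g < k → ∀ t, T[g]? = some t →
    det3 (p (8 + 6 * g)) (p (9 + 6 * g)) (q t.1) = 0 ∧
    det3 (p (11 + 6 * g)) (p (12 + 6 * g)) (q t.1) = 0 ∧
    det3 (p (9 + 6 * g)) (p (10 + 6 * g)) (q t.2.1) = 0 ∧
    det3 (p (12 + 6 * g)) (p (13 + 6 * g)) (q t.2.1) = 0 ∧
    det3 (p (8 + 6 * g)) (p (10 + 6 * g)) (q t.2.2) = 0 ∧
    det3 (p (11 + 6 * g)) (p (13 + 6 * g)) (q t.2.2) = 0
  co : ∀ g, g < k → ∃ o : V3, o 2 ≠ 0 ∧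
    det3 (p (8 + 6 * g)) (p (11 + 6 * g)) o = 0 ∧
    det3 (p (9 + 6 * g)) (p (12 + 6 * g)) o = 0 ∧
    det3 (p (10 + 6 * g)) (p (13 + 6 * g)) o = 0

theorem stage_zero {q : ℕ → V3} (hq : ∀ i, q i 2 ≠ 0) (T : List (ℕ × ℕ × ℕ))
    (h : det3 (q 0) (q 1) (q 2) ≠ 0) : ∃ p, Stage q T 0 p := by
  have g0 : GP q (fun _ => 0) 0 :=
    ⟨fun i hi => absurd hi (by omega), fun i _ hi => absurd hi (by omega),
      fun i j _ hi => absurd hi (by omega), fun i j k _ _ hi => absurd hi (by omega)⟩
  obtain ⟨A, hA⟩ := (g0.ext_unit hq (punit_quad h)).exists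
  obtain ⟨B, hB⟩ := (hA.ext_unit hq (punit_quad h)).exists
  refine ⟨_, hB, ?_, fun g hg => absurd hg (by omega), fun g hg => absurd hg (by omega)⟩
  set p := ext (ext (fun _ => 0) 0 fun r => quadU (q 0) (q 1) (q 2) r A) (0 + 4)
    fun r => quadU (q 0) (q 1) (q 2) r B with hp
  have e0 : p 0 = cmb (q 0) (q 1) (q 2) (A 0) (A 1) (A 2) := rfl
  have e1 : p 1 = cmb (q 0) (q 1) (q 2) (-A 0) (A 1) (A 2) := rfl
  have e2 : p 2 = cmb (q 0) (q 1) (q 2) (A 0) (-A 1) (A 2) := rfl
  have e3 : p 3 = cmb (q 0) (q 1) (q 2) (A 0) (A 1) (-A 2) := rfl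
  have e4 : p 4 = cmb (q 0) (q 1) (q 2) (B 0) (B 1) (B 2) := rfl
  have e5 : p 5 = cmb (q 0) (q 1) (q 2) (-B 0) (B 1) (B 2) := rfl
  have e6 : p 6 = cmb (q 0) (q 1) (q 2) (B 0) (-B 1) (B 2) := rfl
  have e7 : p 7 = cmb (q 0) (q 1) (q 2) (B 0) (B 1) (-B 2) := rfl
  have key : ∀ x y o x' y' o' : ℝ,
      (y * o' = o * y' → det3 (cmb (q 0) (q 1) (q 2) x y o) (cmb (q 0) (q 1) (q 2) x' y' o')
        (q 0) = 0) ∧
      (x * o' = o * x' → det3 (cmb (q 0) (q 1) (q 2) x y o) (cmb (q 0) (q 1) (q 2) x' y' o')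
        (q 1) = 0) ∧
      (x * y' = y * x' → det3 (cmb (q 0) (q 1) (q 2) x y o) (cmb (q 0) (q 1) (q 2) x' y' o')
        (q 2) = 0) := by
    intro x y o x' y' o'
    refine ⟨fun h => ?_, fun h => ?_, fun h => ?_⟩
    · conv_lhs => rw [show q 0 = cmb (q 0) (q 1) (q 2) 1 0 0 from cmb_X _ _ _]
      rw [← cmb_X (q 0) (q 1) (q 2)]
      have := det3_cmb (q 0) (q 1) (q 2) x y o x' y' o' 1 0 0
      rw [← cmb_X (q 0) (q 1) (q 2)] at this
      rw [this]
      linear_combination (det3 (q 0) (q 1) (q 2)) * h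
    · have := det3_cmb (q 0) (q 1) (q 2) x y o x' y' o' 0 1 0
      rw [← cmb_Y (q 0) (q 1) (q 2)] at this
      rw [this]
      linear_combination (-(det3 (q 0) (q 1) (q 2))) * h
    · have := det3_cmb (q 0) (q 1) (q 2) x y o x' y' o' 0 0 1
      rw [← cmb_O (q 0) (q 1) (q 2)] at this
      rw [this]
      linear_combination (det3 (q 0) (q 1) (q 2)) * h
  intro e he m hm
  simp only [gad0, List.mem_cons, List.not_mem_nil, or_false] at he
  rcases he with rfl | rfl | rfl | rfl | rfl | rfl | rfl | rfl | rfl | rfl | rfl | rfl | rfl |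
    rfl | rfl | rfl
  · obtain rfl : m = 0 := by simp only at hm; omega
    simp only [e0, e1]
    exact (key _ _ _ _ _ _).1 (by ring)
  · obtain rfl : m = 0 := by simp only at hm; omega
    simp only [e2, e3]
    exact (key _ _ _ _ _ _).1 (by ring)
  · obtain rfl : m = 1 := by simp only at hm; omega
    simp only [e0, e2]
    exact (key _ _ _ _ _ _).2.1 (by ring)
  · obtain rfl : m = 1 := by simp only at hm; omega
    simp only [e1, e3]
    exact (key _ _ _ _ _ _).2.1 (by ring)
  · obtain rfl : m = 2 := by simp only at hm; omega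
    simp only [e0, e3]
    exact (key _ _ _ _ _ _).2.2 (by ring)
  · obtain rfl : m = 2 := by simp only at hm; omega
    simp only [e1, e2]
    exact (key _ _ _ _ _ _).2.2 (by ring)
  · obtain rfl : m = 0 := by simp only at hm; omega
    simp only [e4, e5]
    exact (key _ _ _ _ _ _).1 (by ring)
  · obtain rfl : m = 0 := by simp only at hm; omega
    simp only [e6, e7]
    exact (key _ _ _ _ _ _).1 (by ring)
  · obtain rfl : m = 1 := by simp only at hm; omega
    simp only [e4, e6]
    exact (key _ _ _ _ _ _).2.1 (by ring)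
  · obtain rfl : m = 1 := by simp only at hm; omega
    simp only [e5, e7]
    exact (key _ _ _ _ _ _).2.1 (by ring)
  · obtain rfl : m = 2 := by simp only at hm; omega
    simp only [e4, e7]
    exact (key _ _ _ _ _ _).2.2 (by ring)
  · obtain rfl : m = 2 := by simp only at hm; omega
    simp only [e5, e6]
    exact (key _ _ _ _ _ _).2.2 (by ring)
  · simp only at hm; omega
  · simp only at hm; omega
  · simp only at hm; omega
  · simp only at hm; omega

theorem stage_succ {q : ℕ → V3} (hq : ∀ i, q i 2 ≠ 0) {T : List (ℕ × ℕ × ℕ)} {k : ℕ}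
    {t : ℕ × ℕ × ℕ} (ht : T[k]? = some t) (hcol : Col3 (q t.1) (q t.2.1) (q t.2.2))
    {p : ℕ → V3} (hp : Stage q T k p) : ∃ p', Stage q T (k + 1) p' := by
  obtain ⟨x, y, hxy⟩ := exists_comb hcol.2.1 hcol.1
  have hx : x ≠ 0 := by
    rintro rfl
    rw [zero_smul, zero_add] at hxy
    apply hcol.2.2.2
    rw [hxy]
    funext i
    fin_cases i <;> simp [cr] <;> ring
  have hy : y ≠ 0 := by
    rintro rfl
    rw [zero_smul, add_zero] at hxy
    apply hcol.2.2.1
    rw [hxy]
    funext i
    fin_cases i <;> simp [cr] <;> ring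
  set c₁ : V3 := x • q t.1 with hc₁
  set c₂ : V3 := q t.2.2 with hc₂
  have hsub : c₂ - c₁ = y • q t.2.1 := by rw [hxy]; simp
  have hun : PUnit q 3 (triU c₁ c₂) := by
    refine punit_tri ?_ ?_ ?_ ?_
    · have := hcol.2.2.1.smul hx one_ne_zero
      rwa [one_smul] at this
    · intro a ha
      have := (ha t.1).smul one_ne_zero hx
      rwa [one_smul] at this
    · intro a ha
      exact ha t.2.2
    · intro a ha
      have := (ha t.2.1).smul one_ne_zero hy
      rw [one_smul] at this
      rwa [hsub]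
  obtain ⟨A, hA⟩ := (hp.gp.ext_unit hq hun).exists
  obtain ⟨B, hB, hB2⟩ := ((hA.ext_unit hq hun).and (gen_coord 2 (A 2))).exists
  set p1 := ext p (8 + 6 * k) fun r => triU c₁ c₂ r A with hp1
  set p2 := ext p1 (8 + 6 * k + 3) fun r => triU c₁ c₂ r B with hp2
  have hold : ∀ i, i < 8 + 6 * k → p2 i = p i := by
    intro i hi
    rw [hp2, ext_old (by omega), hp1, ext_old hi]
  have v0 : p2 (8 + 6 * k) = A := by
    rw [hp2, ext_old (by omega), hp1]
    exact ext_new p (8 + 6 * k) _ 0
  have v1 : p2 (9 + 6 * k) = A + c₁ := by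
    rw [hp2, ext_old (by omega), hp1]
    have := ext_new p (8 + 6 * k) (fun r => triU c₁ c₂ r A) 1
    have e : 8 + 6 * k + 1 = 9 + 6 * k := by omega
    rw [e] at this
    rw [this]; rfl
  have v2 : p2 (10 + 6 * k) = A + c₂ := by
    rw [hp2, ext_old (by omega), hp1]
    have := ext_new p (8 + 6 * k) (fun r => triU c₁ c₂ r A) 2
    have e : 8 + 6 * k + 2 = 10 + 6 * k := by omega
    rw [e] at this
    rw [this]; rfl
  have v3 : p2 (11 + 6 * k) = B := by
    have := ext_new p1 (8 + 6 * k + 3) (fun r => triU c₁ c₂ r B) 0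
    have e : 11 + 6 * k = 8 + 6 * k + 3 + 0 := by omega
    rw [hp2, e, this]; rfl
  have v4 : p2 (12 + 6 * k) = B + c₁ := by
    have := ext_new p1 (8 + 6 * k + 3) (fun r => triU c₁ c₂ r B) 1
    have e : 8 + 6 * k + 3 + 1 = 12 + 6 * k := by omega
    rw [e] at this
    rw [hp2, this]; rfl
  have v5 : p2 (13 + 6 * k) = B + c₂ := by
    have := ext_new p1 (8 + 6 * k + 3) (fun r => triU c₁ c₂ r B) 2
    have e : 8 + 6 * k + 3 + 2 = 13 + 6 * k := by omega
    rw [e] at this
    rw [hp2, this]; rfl
  refine ⟨p2, ?_, ?_, ?_, ?_⟩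
  · have e : 8 + 6 * (k + 1) = 8 + 6 * k + 3 + 3 := by omega
    rw [e]; exact hB
  · intro e he m hm
    have := gad0_range he
    rw [hold _ (by omega), hold _ (by omega)]
    exact hp.c0 e he m hm
  · intro g hg t' ht'
    by_cases hgk : g < k
    · rw [hold _ (by omega), hold _ (by omega), hold _ (by omega), hold _ (by omega),
        hold _ (by omega), hold _ (by omega)]
      exact hp.cg g hgk t' ht'
    · obtain rfl : g = k := by omega
      obtain rfl : t' = t := by
        rw [ht] at ht'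
        exact (Option.some.inj ht').symm
      rw [v0, v1, v2, v3, v4, v5]
      refine ⟨?_, ?_, ?_, ?_, ?_, ?_⟩
      · simp only [hc₁, det3, Pi.add_apply, Pi.smul_apply, smul_eq_mul]; ring
      · simp only [hc₁, det3, Pi.add_apply, Pi.smul_apply, smul_eq_mul]; ring
      · rw [hxy]
        simp only [hc₁, det3, Pi.add_apply, Pi.smul_apply, smul_eq_mul]; ring
      · rw [hxy]
        simp only [hc₁, det3, Pi.add_apply, Pi.smul_apply, smul_eq_mul]; ring
      · simp only [← hc₂, det3, Pi.add_apply]; ring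
      · simp only [← hc₂, det3, Pi.add_apply]; ring
  · intro g hg
    by_cases hgk : g < k
    · rw [hold _ (by omega), hold _ (by omega), hold _ (by omega), hold _ (by omega),
        hold _ (by omega), hold _ (by omega)]
      exact hp.co g hgk
    · obtain rfl : g = k := by omega
      refine ⟨A - B, ?_, ?_, ?_, ?_⟩
      · simp only [Pi.sub_apply]
        intro h
        exact hB2 (by linarith)
      · rw [v0, v3]; simp only [det3, Pi.sub_apply]; ring
      · rw [v1, v4]; simp only [det3, Pi.add_apply, Pi.sub_apply]; ring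
      · rw [v2, v5]; simp only [det3, Pi.add_apply, Pi.sub_apply]; ring

theorem exists_stage {q : ℕ → V3} (hq : ∀ i, q i 2 ≠ 0) {T : List (ℕ × ℕ × ℕ)}
    (h : Conf T q) : ∀ k, k ≤ T.length → ∃ p, Stage q T k p
  | 0, _ => stage_zero hq T h.2
  | k + 1, hk => by
    obtain ⟨p, hp⟩ := exists_stage hq h k (by omega)
    have ht : T[k]? = some T[k] := List.getElem?_eq_getElem (by omega)
    exact stage_succ hq ht (h.1 _ (List.getElem_mem _)) hp

theorem drawable_of_stage {q : ℕ → V3} (hq : ∀ i, q i 2 ≠ 0) {T : List (ℕ × ℕ × ℕ)}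
    (hT : ∀ t ∈ T, Dist3 t) {p : ℕ → V3} (hp : Stage q T T.length p) :
    IsFaithfulDrawing (graph T) fun i => aff (p i) := by
  have hfin : ∀ i, i < (graph T).1 → p i 2 ≠ 0 := hp.gp.fin
  have hlt : ∀ e ∈ (graph T).2, e.1 < e.2.1 ∧ e.2.1 < (graph T).1 := (isInput_graph hT).lt
  have hne : ∀ u v, u < v → v < (graph T).1 → aff (p u) ≠ aff (p v) := fun u v huv hv =>
    aff_injective (hfin u (huv.trans hv)) (hfin v hv) (hp.gp.pair u v huv hv)
  have hmem : ∀ e ∈ (graph T).2, ∀ o : V3, o 2 ≠ 0 → det3 (p e.1) (p e.2.1) o = 0 →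
      aff o ∈ line[ℝ, aff (p e.1), aff (p e.2.1)] := by
    intro e he o ho h0
    have h1 := hlt e he
    refine mem_line_of_det (hne _ _ h1.1 h1.2) ?_
    rw [det3_hom_aff (hfin _ (h1.1.trans h1.2)) (hfin _ h1.2) ho, h0, zero_div]
  refine ⟨fun u hu v hv h => ?_, fun c => ?_, fun e he f hf hef => ?_⟩
  · by_contra huv
    rcases lt_or_gt_of_ne huv with h1 | h1
    · exact hne u v h1 hv h
    · exact hne v u h1 hu h.symm
  · rcases Nat.even_or_odd' c with ⟨m, rfl | rfl⟩
    · refine ⟨aff (q m), fun e he hc => hmem e he _ (hq m) ?_⟩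
      rcases List.mem_append.1 he with he | he
      · exact hp.c0 e he m hc
      · obtain ⟨g, t, hg, he⟩ := mem_gads.1 he
        rw [zero_add] at he
        have hgl := (List.getElem?_eq_some_iff.1 hg).1
        obtain ⟨h1, h2, h3, h4, h5, h6⟩ := hp.cg g hgl t hg
        simp only [gadC, List.mem_cons, List.not_mem_nil, or_false] at he
        rcases he with rfl | rfl | rfl | rfl | rfl | rfl | rfl | rfl | rfl | rfl | rfl | rfl
        · obtain rfl : t.1 = m := by simp only at hc; omega
          exact h1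
        · obtain rfl : t.1 = m := by simp only at hc; omega
          exact h2
        · obtain rfl : t.2.1 = m := by simp only at hc; omega
          exact h3
        · obtain rfl : t.2.1 = m := by simp only at hc; omega
          exact h4
        · obtain rfl : t.2.2 = m := by simp only at hc; omega
          exact h5
        · obtain rfl : t.2.2 = m := by simp only at hc; omega
          exact h6
        all_goals (simp only at hc; omega)
    · by_cases hr : ∃ g, g < T.length ∧ 2 * m + 1 = 9 + 8 * g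
      · obtain ⟨g, hg, hgm⟩ := hr
        obtain ⟨o, ho, h1, h2, h3⟩ := hp.co g hg
        refine ⟨aff o, fun e he hc => hmem e he _ ho ?_⟩
        rcases List.mem_append.1 he with he | he
        · exfalso
          have : ∀ e ∈ gad0, e.2.2 < 9 := by decide
          have := this e he
          omega
        · obtain ⟨g', t, hg', he⟩ := mem_gads.1 he
          rw [zero_add] at he
          simp only [gadC, List.mem_cons, List.not_mem_nil, or_false] at he
          rcases he with rfl | rfl | rfl | rfl | rfl | rfl | rfl | rfl | rfl | rfl | rfl | rfl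
          · simp only at hc; omega
          · simp only at hc; omega
          · simp only at hc; omega
          · simp only at hc; omega
          · simp only at hc; omega
          · simp only at hc; omega
          · obtain rfl : g' = g := by simp only at hc; omega
            exact h1
          · obtain rfl : g' = g := by simp only at hc; omega
            exact h2
          · obtain rfl : g' = g := by simp only at hc; omega
            exact h3
          all_goals (simp only at hc; omega)
      · by_cases hex : ∃ e₀ ∈ (graph T).2, e₀.2.2 = 2 * m + 1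
        · obtain ⟨e₀, he₀, hc₀⟩ := hex
          refine ⟨aff (p e₀.1), fun e he hc => ?_⟩
          have : e.1 = e₀.1 := by
            rcases List.mem_append.1 he with he | he <;>
              rcases List.mem_append.1 he₀ with he₀ | he₀
            · have : ∀ e ∈ gad0, ∀ e₀ ∈ gad0, e.2.2 % 2 = 1 → e.2.2 = e₀.2.2 → e.1 = e₀.1 := by
                decide
              exact this e he e₀ he₀ (by omega) (by omega)
            · exfalso
              have h9 : ∀ e ∈ gad0, e.2.2 < 9 := by decide
              have h9 := h9 e he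
              obtain ⟨g', t, hg', he₀⟩ := mem_gads.1 he₀
              rw [zero_add] at he₀
              simp only [gadC, List.mem_cons, List.not_mem_nil, or_false] at he₀
              rcases he₀ with rfl | rfl | rfl | rfl | rfl | rfl | rfl | rfl | rfl | rfl | rfl |
                rfl <;> (simp only at hc₀; omega)
            · exfalso
              have h9 : ∀ e ∈ gad0, e.2.2 < 9 := by decide
              have h9 := h9 e₀ he₀
              obtain ⟨g', t, hg', he⟩ := mem_gads.1 he
              rw [zero_add] at he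
              simp only [gadC, List.mem_cons, List.not_mem_nil, or_false] at he
              rcases he with rfl | rfl | rfl | rfl | rfl | rfl | rfl | rfl | rfl | rfl | rfl |
                rfl <;> (simp only at hc; omega)
            · obtain ⟨g', t', hg', he₀⟩ := mem_gads.1 he₀
              obtain ⟨g, t, hg, he⟩ := mem_gads.1 he
              rw [zero_add] at he₀ he
              have hg'' := (List.getElem?_eq_some_iff.1 hg').1
              have hgl := (List.getElem?_eq_some_iff.1 hg).1
              have hn : 2 * m + 1 ≠ 9 + 8 * g := fun h => hr ⟨g, hgl, h⟩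
              have hn' : 2 * m + 1 ≠ 9 + 8 * g' := fun h => hr ⟨g', hg'', h⟩
              simp only [gadC, List.mem_cons, List.not_mem_nil, or_false] at he he₀
              rcases he with rfl | rfl | rfl | rfl | rfl | rfl | rfl | rfl | rfl | rfl | rfl |
                rfl <;> (try (simp only at hc; omega)) <;>
              rcases he₀ with rfl | rfl | rfl | rfl | rfl | rfl | rfl | rfl | rfl | rfl | rfl |
                rfl <;> (simp only at hc hc₀ ⊢; omega)
          rw [← this]
          exact left_mem_affineSpan_pair ℝ _ _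
        · exact ⟨0, fun e he hc => absurd ⟨e, he, hc⟩ hex⟩
  · intro heq
    have hsim : (e.1, e.2.1) ≠ (f.1, f.2.1) := by
      haveI : Std.Symm (fun e f : ℕ × ℕ × ℕ => (e.1, e.2.1) ≠ (f.1, f.2.1)) :=
        ⟨fun _ _ h => h.symm⟩
      exact (isInput_graph hT).simple.forall he hf hef
    have h1 := hlt e he
    have h2 := hlt f hf
    obtain ⟨x, hx, hx1, hx2⟩ : ∃ x, (x = f.1 ∨ x = f.2.1) ∧ x ≠ e.1 ∧ x ≠ e.2.1 := by
      by_cases h3 : f.1 = e.1
      · refine ⟨f.2.1, Or.inr rfl, by omega, ?_⟩
        intro h4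
        exact hsim (Prod.ext h3.symm h4.symm)
      · by_cases h4 : f.1 = e.2.1
        · exact ⟨f.2.1, Or.inr rfl, by omega, by omega⟩
        · exact ⟨f.1, Or.inl rfl, h3, h4⟩
    have hxn : x < (graph T).1 := by rcases hx with rfl | rfl <;> omega
    have h5 : aff (p x) ∈ line[ℝ, aff (p e.1), aff (p e.2.1)] := by
      rw [heq]
      rcases hx with rfl | rfl
      · exact left_mem_affineSpan_pair ℝ _ _
      · exact right_mem_affineSpan_pair ℝ _ _
    have h6 := det_of_mem_line h5
    rw [det3_hom_aff (hfin _ (h1.1.trans h1.2)) (hfin _ h1.2) (hfin _ hxn)] at h6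
    have h7 := hp.gp.trip' (h1.1.trans h1.2) h1.2 hxn h1.1.ne hx1.symm hx2.symm
    apply h7
    have h8 : p e.1 2 * p e.2.1 2 * p x 2 ≠ 0 :=
      mul_ne_zero (mul_ne_zero (hfin _ (h1.1.trans h1.2)) (hfin _ h1.2)) (hfin _ hxn)
    exact (div_eq_zero_iff.1 h6).resolve_right h8

theorem drawable_of_conf {T : List (ℕ × ℕ × ℕ)} (hT : ∀ t ∈ T, Dist3 t) {q : ℕ → V3}
    (hq : ∀ i, q i 2 ≠ 0) (h : Conf T q) : Drawable (graph T) := by
  obtain ⟨p, hp⟩ := exists_stage hq h T.length le_rfl
  exact ⟨_, drawable_of_stage hq hT hp⟩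

end Pool.Agent.NPC.ER.Faith
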