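import Mathlib

/-!
# Faithful drawings of edge-coloured graphs
-/

namespace Pool.Agent.NPC.ER.Faith

/-- An edge-coloured graph `(n, E)`: the vertices are `0, …, n - 1`, and a member `(u, v, c)` of
the list `E` is an edge joining `u` and `v`, of colour `c`. -/
abbrev CGraph : Type := ℕ × List (ℕ × ℕ × ℕ)

/-- The inputs of the problem: finite simple `4`-regular graphs with a proper edge-colouring. -/
structure IsInput (G : CGraph) : Prop where
  /-- every edge is written `(u, v, c)` with `u < v < n` -/
  lt : ∀ e ∈ G.2, e.1 < e.2.1 ∧ e.2.1 < G.1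
  /-- no two members of the list have the same endpoints -/
  simple : G.2.Pairwise fun e f => (e.1, e.2.1) ≠ (f.1, f.2.1)
  /-- every vertex belongs to exactly four edges -/
  regular : ∀ v < G.1, (G.2.filter fun e => e.1 = v ∨ e.2.1 = v).length = 4
  /-- edges with a common endpoint have different colours -/
  proper : G.2.Pairwise fun e f =>
    (e.1 = f.1 ∨ e.1 = f.2.1 ∨ e.2.1 = f.1 ∨ e.2.1 = f.2.1) → e.2.2 ≠ f.2.2

/-- `p` is a faithful (straight-line) drawing of `G`: the vertices are placed at distinct points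
of the plane, for every colour the lines supporting the edges of that colour have a common point,
and distinct edges have distinct supporting lines. -/
structure IsFaithfulDrawing (G : CGraph) (p : ℕ → ℝ × ℝ) : Prop where
  inj : ∀ u < G.1, ∀ v < G.1, p u = p v → u = v
  conc : ∀ c, ∃ q : ℝ × ℝ, ∀ e ∈ G.2, e.2.2 = c → q ∈ line[ℝ, p e.1, p e.2.1]
  lines : ∀ e ∈ G.2, ∀ f ∈ G.2, e ≠ f → line[ℝ, p e.1, p e.2.1] ≠ line[ℝ, p f.1, p f.2.1]

/-- `G` has a faithful drawing. -/
def Drawable (G : CGraph) : Prop := ∃ p : ℕ → ℝ × ℝ, IsFaithfulDrawing G p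

end Pool.Agent.NPC.ER.Faith
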