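import Pool.Agent.H606R2.Faith.Defs

/-!
# The graph of a configuration
-/

namespace Pool.Agent.NPC.ER.Faith

/-- The edges of the first gadget: two complete graphs on four vertices joined by a matching. The
even colours `0, 2, 4` stand for the points `0, 1, 2`. -/
def gad0 : List (ℕ × ℕ × ℕ) :=
  [(0, 1, 0), (2, 3, 0), (0, 2, 2), (1, 3, 2), (0, 3, 4), (1, 2, 4),
   (4, 5, 0), (6, 7, 0), (4, 6, 2), (5, 7, 2), (4, 7, 4), (5, 6, 4),
   (0, 4, 1), (1, 5, 3), (2, 6, 5), (3, 7, 7)]

/-- The edges of the `g`-th prism, for a triple `t` of points. The colour `2 * m` stands for the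
point `m`; the odd colours are not used in other gadgets. -/
def gadC (g : ℕ) (t : ℕ × ℕ × ℕ) : List (ℕ × ℕ × ℕ) :=
  [(8 + 6 * g, 9 + 6 * g, 2 * t.1), (11 + 6 * g, 12 + 6 * g, 2 * t.1),
   (9 + 6 * g, 10 + 6 * g, 2 * t.2.1), (12 + 6 * g, 13 + 6 * g, 2 * t.2.1),
   (8 + 6 * g, 10 + 6 * g, 2 * t.2.2), (11 + 6 * g, 13 + 6 * g, 2 * t.2.2),
   (8 + 6 * g, 11 + 6 * g, 9 + 8 * g), (9 + 6 * g, 12 + 6 * g, 9 + 8 * g),
   (10 + 6 * g, 13 + 6 * g, 9 + 8 * g),
   (8 + 6 * g, 12 + 6 * g, 11 + 8 * g), (9 + 6 * g, 13 + 6 * g, 13 + 8 * g),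
   (10 + 6 * g, 11 + 6 * g, 15 + 8 * g)]

/-- The edges of the prisms, starting with number `g`. -/
def gads : ℕ → List (ℕ × ℕ × ℕ) → List (ℕ × ℕ × ℕ)
  | _, [] => []
  | g, t :: T => gadC g t ++ gads (g + 1) T

/-- The graph. -/
def graph (T : List (ℕ × ℕ × ℕ)) : CGraph := (8 + 6 * T.length, gad0 ++ gads 0 T)

theorem mem_gads {e : ℕ × ℕ × ℕ} : ∀ {T : List (ℕ × ℕ × ℕ)} {g : ℕ},
    e ∈ gads g T ↔ ∃ k t, T[k]? = some t ∧ e ∈ gadC (g + k) t
  | [], g => by simp [gads]
  | t :: T, g => by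
    rw [gads, List.mem_append, mem_gads]
    constructor
    · rintro (h | ⟨k, t', h, h'⟩)
      · exact ⟨0, t, rfl, h⟩
      · refine ⟨k + 1, t', by simpa using h, ?_⟩
        have : g + (k + 1) = g + 1 + k := by omega
        rw [this]; exact h'
    · rintro ⟨k, t', h, h'⟩
      cases k with
      | zero =>
        simp only [List.getElem?_cons_zero, Option.some.injEq] at h
        subst h
        exact Or.inl h'
      | succ k =>
        refine Or.inr ⟨k, t', by simpa using h, ?_⟩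
        have : g + (k + 1) = g + 1 + k := by omega
        rw [this] at h'; exact h'

theorem gadC_range {g : ℕ} {t e : ℕ × ℕ × ℕ} (h : e ∈ gadC g t) :
    8 + 6 * g ≤ e.1 ∧ e.1 < e.2.1 ∧ e.2.1 < 14 + 6 * g := by
  simp only [gadC, List.mem_cons, List.not_mem_nil, or_false] at h
  rcases h with rfl | rfl | rfl | rfl | rfl | rfl | rfl | rfl | rfl | rfl | rfl | rfl <;>
    dsimp only <;> omega

theorem gads_range {T : List (ℕ × ℕ × ℕ)} {g : ℕ} {e : ℕ × ℕ × ℕ} (h : e ∈ gads g T) :
    8 + 6 * g ≤ e.1 ∧ e.1 < e.2.1 ∧ e.2.1 < 8 + 6 * (g + T.length) := by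
  obtain ⟨k, t, hk, he⟩ := mem_gads.1 h
  obtain ⟨h1, h2, h3⟩ := gadC_range he
  have := (List.getElem?_eq_some_iff.1 hk).1
  omega

theorem gad0_range {e : ℕ × ℕ × ℕ} (h : e ∈ gad0) : e.1 < e.2.1 ∧ e.2.1 < 8 := by
  revert e
  decide

/-- distinct entries -/
def Dist3 (t : ℕ × ℕ × ℕ) : Prop := t.1 ≠ t.2.1 ∧ t.1 ≠ t.2.2 ∧ t.2.1 ≠ t.2.2

/-- the condition for pairs of edges -/
def Rel (e f : ℕ × ℕ × ℕ) : Prop :=
  (e.1, e.2.1) ≠ (f.1, f.2.1) ∧
    ((e.1 = f.1 ∨ e.1 = f.2.1 ∨ e.2.1 = f.1 ∨ e.2.1 = f.2.1) → e.2.2 ≠ f.2.2)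

theorem rel_gad0 : gad0.Pairwise Rel := by
  unfold Rel gad0
  decide

theorem rel_gadC {g : ℕ} {t : ℕ × ℕ × ℕ} (ht : Dist3 t) : (gadC g t).Pairwise Rel := by
  obtain ⟨a, b, c⟩ := t
  obtain ⟨h1, h2, h3⟩ := ht
  simp only at h1 h2 h3
  simp only [gadC, Rel, List.pairwise_cons, List.mem_cons, List.not_mem_nil, or_false,
    forall_eq_or_imp, forall_eq, ne_eq, Prod.mk.injEq, not_and, List.Pairwise.nil, and_true,
    IsEmpty.forall_iff, implies_true]
  omega

theorem rel_gads : ∀ (T : List (ℕ × ℕ × ℕ)) (g : ℕ), (∀ t ∈ T, Dist3 t) → (gads g T).Pairwise Rel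
  | [], g, _ => List.Pairwise.nil
  | t :: T, g, h => by
    rw [gads, List.pairwise_append]
    refine ⟨rel_gadC (h t (by simp)), rel_gads T (g + 1) fun t ht => h t (by simp [ht]), ?_⟩
    intro e he f hf
    have h1 := gadC_range he
    have h2 := gads_range hf
    refine ⟨fun h0 => ?_, fun h0 => ?_⟩
    · have := congrArg Prod.fst h0
      simp only at this
      omega
    · omega

theorem rel_graph {T : List (ℕ × ℕ × ℕ)} (h : ∀ t ∈ T, Dist3 t) :
    (graph T).2.Pairwise Rel := by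
  unfold graph
  rw [List.pairwise_append]
  refine ⟨rel_gad0, rel_gads T 0 h, ?_⟩
  intro e he f hf
  have h1 := gad0_range he
  have h2 := gads_range hf
  refine ⟨fun h0 => ?_, fun h0 => ?_⟩
  · have := congrArg Prod.fst h0
    simp only at this
    omega
  · omega

/-- number of edges at a vertex -/
def degL (E : List (ℕ × ℕ × ℕ)) (v : ℕ) : ℕ := (E.filter fun e => e.1 = v ∨ e.2.1 = v).length

theorem degL_append (E E' : List (ℕ × ℕ × ℕ)) (v : ℕ) : degL (E ++ E') v = degL E v + degL E' v := by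
  simp [degL]

theorem degL_eq_zero {E : List (ℕ × ℕ × ℕ)} {v : ℕ} (h : ∀ e ∈ E, e.1 ≠ v ∧ e.2.1 ≠ v) :
    degL E v = 0 := by
  unfold degL
  rw [List.length_eq_zero_iff, List.filter_eq_nil_iff]
  intro e he
  have := h e he
  simp [this.1, this.2]

theorem degL_gad0 (v : ℕ) (hv : v < 8) : degL gad0 v = 4 := by
  unfold degL gad0
  interval_cases v <;> decide

theorem degL_gadC (g : ℕ) (t : ℕ × ℕ × ℕ) (r : ℕ) (hr : r < 6) :
    degL (gadC g t) (8 + 6 * g + r) = 4 := by
  unfold degL gadC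
  have key : ∀ a b : ℕ, (a + 6 * g = 8 + 6 * g + b) ↔ a = 8 + b := by
    intro a b; omega
  simp only [List.filter_cons, key]
  interval_cases r <;> simp

theorem degL_gads : ∀ (T : List (ℕ × ℕ × ℕ)) (g v : ℕ), 8 + 6 * g ≤ v →
    v < 8 + 6 * (g + T.length) → degL (gads g T) v = 4
  | [], g, v, h1, h2 => by simp at h2; omega
  | t :: T, g, v, h1, h2 => by
    rw [gads, degL_append]
    by_cases h : v < 14 + 6 * g
    · have e1 : degL (gadC g t) v = 4 := by
        obtain ⟨r, rfl⟩ : ∃ r, v = 8 + 6 * g + r := ⟨v - (8 + 6 * g), by omega⟩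
        exact degL_gadC g t r (by omega)
      have e2 : degL (gads (g + 1) T) v = 0 := by
        apply degL_eq_zero
        intro e he
        have := gads_range he
        omega
      rw [e1, e2]
    · have e1 : degL (gadC g t) v = 0 := by
        apply degL_eq_zero
        intro e he
        have := gadC_range he
        omega
      have e2 : degL (gads (g + 1) T) v = 4 := by
        apply degL_gads T (g + 1) v (by omega)
        simp only [List.length_cons] at h2
        omega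
      rw [e1, e2]

/-- The graph is a legitimate input. -/
theorem isInput_graph {T : List (ℕ × ℕ × ℕ)} (h : ∀ t ∈ T, Dist3 t) : IsInput (graph T) := by
  refine ⟨fun e he => ?_, (rel_graph h).imp fun h => h.1, fun v hv => ?_,
    (rel_graph h).imp fun h => h.2⟩
  · simp only [graph] at he ⊢
    rcases List.mem_append.1 he with he | he
    · have := gad0_range he
      omega
    · have := gads_range he
      omega
  · simp only [graph] at hv ⊢
    change degL (gad0 ++ gads 0 T) v = 4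
    rw [degL_append]
    by_cases h8 : v < 8
    · have e2 : degL (gads 0 T) v = 0 := by
        apply degL_eq_zero
        intro e he
        have := gads_range he
        omega
      rw [degL_gad0 v h8, e2]
    · have e1 : degL gad0 v = 0 := by
        apply degL_eq_zero
        intro e he
        have := gad0_range he
        omega
      rw [e1, degL_gads T 0 v (by omega) (by omega)]

end Pool.Agent.NPC.ER.Faith
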