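import Pool.Agent.H606R2.Faith.Graph
import Pool.Agent.H606R2.Faith.Plane
import Pool.Agent.H606R2.Faith.VS

/-!
# From a faithful drawing to a configuration
-/

namespace Pool.Agent.NPC.ER.Faith

section

variable {G : CGraph} {p : ℕ → ℝ × ℝ} (hp : IsFaithfulDrawing G p)
  (hlt : ∀ e ∈ G.2, e.1 < e.2.1 ∧ e.2.1 < G.1)

include hp hlt

theorem pt_ne {e : ℕ × ℕ × ℕ} (he : e ∈ G.2) : p e.1 ≠ p e.2.1 := by
  intro h
  have h1 := hlt e he
  have := hp.inj _ (h1.1.trans h1.2) _ h1.2 h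
  omega

/-- Edges `uv`, `vw`. -/
theorem det_path {u v w c d : ℕ} (h1 : (u, v, c) ∈ G.2) (h2 : (v, w, d) ∈ G.2) :
    det3 (hom (p u)) (hom (p v)) (hom (p w)) ≠ 0 := by
  refine det_ne_of_lines (pt_ne hp hlt h1) (pt_ne hp hlt h2) (hp.lines _ h1 _ h2 ?_)
  intro h
  have e1 := congrArg Prod.fst h
  have := hlt _ h1
  simp only at e1 this
  omega

/-- Edges `uv`, `uw`. -/
theorem det_fork {u v w c d : ℕ} (h1 : (u, v, c) ∈ G.2) (h2 : (u, w, d) ∈ G.2) (hvw : v ≠ w) :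
    det3 (hom (p v)) (hom (p u)) (hom (p w)) ≠ 0 := by
  refine det_ne_of_lines (pt_ne hp hlt h1).symm (pt_ne hp hlt h2) ?_
  rw [line_comm]
  refine hp.lines _ h1 _ h2 ?_
  intro h
  have e1 := congrArg (fun x => x.2.1) h
  exact hvw e1

/-- Edges `uw`, `vw`. -/
theorem det_join {u v w c d : ℕ} (h1 : (u, w, c) ∈ G.2) (h2 : (v, w, d) ∈ G.2) (huv : u ≠ v) :
    det3 (hom (p u)) (hom (p w)) (hom (p v)) ≠ 0 := by
  refine det_ne_of_lines (pt_ne hp hlt h1) (pt_ne hp hlt h2).symm ?_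
  rw [line_comm (p w)]
  refine hp.lines _ h1 _ h2 ?_
  intro h
  have e1 := congrArg (fun x => x.1) h
  exact huv e1

end

theorem graph_lt (T : List (ℕ × ℕ × ℕ)) : ∀ e ∈ (graph T).2, e.1 < e.2.1 ∧ e.2.1 < (graph T).1 := by
  intro e he
  simp only [graph] at he ⊢
  rcases List.mem_append.1 he with he | he
  · have := gad0_range he
    omega
  · have := gads_range he
    omega

theorem mem_graph_gad0 {T : List (ℕ × ℕ × ℕ)} {e : ℕ × ℕ × ℕ} (h : e ∈ gad0) :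
    e ∈ (graph T).2 := List.mem_append.2 (Or.inl h)

theorem mem_graph_gadC {T : List (ℕ × ℕ × ℕ)} {k : ℕ} {t e : ℕ × ℕ × ℕ} (hk : T[k]? = some t)
    (h : e ∈ gadC k t) : e ∈ (graph T).2 :=
  List.mem_append.2 (Or.inr (mem_gads.2 ⟨k, t, hk, by rwa [zero_add]⟩))

theorem conf_of_drawable {T : List (ℕ × ℕ × ℕ)} (h : Drawable (graph T)) : ∃ q, Conf T q := by
  obtain ⟨p, hp⟩ := h
  have hlt := graph_lt T
  choose ce hce using hp.conc
  have hc : ∀ {u v m : ℕ}, (u, v, m) ∈ (graph T).2 →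
      ∃ s t : ℝ, hom (ce m) = s • hom (p u) + t • hom (p v) :=
    fun {u v m} he => comb_of_mem_line (hce m (u, v, m) he rfl)
  refine ⟨fun m => hom (ce (2 * m)), fun t ht => ?_, ?_⟩
  · obtain ⟨k, hk⟩ := List.mem_iff_getElem?.1 ht
    obtain ⟨a, b, c⟩ := t
    have m1 : (8 + 6 * k, 9 + 6 * k, 2 * a) ∈ (graph T).2 :=
      mem_graph_gadC hk (by simp [gadC])
    have m2 : (11 + 6 * k, 12 + 6 * k, 2 * a) ∈ (graph T).2 :=
      mem_graph_gadC hk (by simp [gadC])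
    have m3 : (9 + 6 * k, 10 + 6 * k, 2 * b) ∈ (graph T).2 :=
      mem_graph_gadC hk (by simp [gadC])
    have m4 : (12 + 6 * k, 13 + 6 * k, 2 * b) ∈ (graph T).2 :=
      mem_graph_gadC hk (by simp [gadC])
    have m5 : (8 + 6 * k, 10 + 6 * k, 2 * c) ∈ (graph T).2 :=
      mem_graph_gadC hk (by simp [gadC])
    have m6 : (11 + 6 * k, 13 + 6 * k, 2 * c) ∈ (graph T).2 :=
      mem_graph_gadC hk (by simp [gadC])
    have m7 : (8 + 6 * k, 11 + 6 * k, 9 + 8 * k) ∈ (graph T).2 :=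
      mem_graph_gadC hk (by simp [gadC])
    have m8 : (9 + 6 * k, 12 + 6 * k, 9 + 8 * k) ∈ (graph T).2 :=
      mem_graph_gadC hk (by simp [gadC])
    have m9 : (10 + 6 * k, 13 + 6 * k, 9 + 8 * k) ∈ (graph T).2 :=
      mem_graph_gadC hk (by simp [gadC])
    refine desargues (P₁ := hom (p (8 + 6 * k))) (P₂ := hom (p (9 + 6 * k)))
      (P₃ := hom (p (10 + 6 * k))) (R₁ := hom (p (11 + 6 * k))) (R₂ := hom (p (12 + 6 * k)))
      (R₃ := hom (p (13 + 6 * k))) (O := hom (ce (9 + 8 * k))) (hom_ne_zero _) (hom_ne_zero _)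
      (hom_ne_zero _) (hom_ne_zero _) (hc m7) (hc m8) (hc m9) (hc m1) (hc m2) (hc m3) (hc m4)
      (hc m5) (hc m6) ?_ ?_ ?_ ?_ ?_
    · exact det_path hp hlt m1 m3
    · exact det_path hp hlt m7 m2
    · exact det_path hp hlt m8 m4
    · exact det_path hp hlt m7 m6
    · have := det_join hp hlt m9 m6 (by omega)
      rw [det3_swap₂₃] at this
      intro h0
      apply this
      rw [h0, neg_zero]
  · have m1 : (0, 1, 0) ∈ (graph T).2 := mem_graph_gad0 (by simp [gad0])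
    have m2 : (2, 3, 0) ∈ (graph T).2 := mem_graph_gad0 (by simp [gad0])
    have m3 : (0, 2, 2) ∈ (graph T).2 := mem_graph_gad0 (by simp [gad0])
    have m4 : (1, 3, 2) ∈ (graph T).2 := mem_graph_gad0 (by simp [gad0])
    have m5 : (0, 3, 4) ∈ (graph T).2 := mem_graph_gad0 (by simp [gad0])
    have m6 : (1, 2, 4) ∈ (graph T).2 := mem_graph_gad0 (by simp [gad0])
    refine fano (P₀ := hom (p 0)) (P₁ := hom (p 1)) (P₂ := hom (p 2)) (P₃ := hom (p 3))
      (hom_ne_zero _) (hom_ne_zero _) (hom_ne_zero _) (hc m1) (hc m2) (hc m3) (hc m4) (hc m5)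
      (hc m6) ?_ ?_ ?_ ?_
    · exact det_path hp hlt m1 m6
    · exact det_path hp hlt m1 m4
    · exact det_path hp hlt m3 m2
    · exact det_path hp hlt m6 m2

end Pool.Agent.NPC.ER.Faith
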