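import Pool.Agent.H606R2.Faith.PolyT
import Pool.Agent.H606R2.Faith.Sound
import Pool.Agent.H606R2.Faith.Complete

/-!
# Correctness of the reduction
-/

namespace Pool.Agent.NPC.ER.Faith

theorem dist_vbase {i : ℕ} {t : ℕ × ℕ × ℕ} (h : t ∈ vbase i) : Dist3 t := by
  simp only [vbase, List.mem_cons, List.not_mem_nil, or_false] at h
  rcases h with rfl | rfl | rfl <;> refine ⟨?_, ?_, ?_⟩ <;> simp only [vP, wP] <;> omega

theorem dist_tri {S : List Con} {t : ℕ × ℕ × ℕ} (h : t ∈ tri S) : Dist3 t := by
  rcases mem_tri.1 h with h | ⟨k, d, _, h⟩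
  · simp only [List.mem_cons, List.not_mem_nil, or_false] at h
    rcases h with rfl | rfl | rfl | rfl <;> exact ⟨by decide, by decide, by decide⟩
  · cases d with
    | one i =>
      simp only [triC, List.mem_append, List.mem_cons, List.not_mem_nil, or_false] at h
      rcases h with h | rfl
      · exact dist_vbase h
      · refine ⟨?_, ?_, ?_⟩ <;> simp only [vP] <;> omega
    | add i j l =>
      simp only [triC, List.mem_append, List.mem_cons, List.not_mem_nil, or_false] at h
      rcases h with ((h | h) | h) | rfl | rfl | rfl
      · exact dist_vbase h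
      · exact dist_vbase h
      · exact dist_vbase h
      all_goals (refine ⟨?_, ?_, ?_⟩ <;> simp only [vP, wP, kP] <;> omega)
    | mul i j l =>
      simp only [triC, List.mem_append, List.mem_cons, List.not_mem_nil, or_false] at h
      rcases h with ((h | h) | h) | rfl | rfl | rfl
      · exact dist_vbase h
      · exact dist_vbase h
      · exact dist_vbase h
      all_goals (refine ⟨?_, ?_, ?_⟩ <;> simp only [vP, wP, kP] <;> omega)

theorem isInput_red (S : List Con) : IsInput (red S) := isInput_graph fun _ h => dist_tri h

theorem red_correct (S : List Con) : Sat S ↔ Drawable (red S) := by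
  constructor
  · intro h
    obtain ⟨v, hv, hs⟩ := pos_complete h
    obtain ⟨q, hq, hq2⟩ := exists_finite_conf (tri_complete hv hs) (confOf_ne_zero v _)
    exact drawable_of_conf (fun _ h => dist_tri h) hq2 hq
  · intro h
    obtain ⟨q, hq⟩ := conf_of_drawable h
    exact pos_sound (tri_sound hq)

/-- Faithful drawability of properly edge-coloured `4`-regular graphs is `∃ℝ`-hard. -/
theorem faithful_hard : ERHard (lang fun G : CGraph => IsInput G ∧ Drawable G) :=
  ERHard.of_sys poly_red fun S => (red_correct S).trans ⟨fun h => ⟨isInput_red S, h⟩, fun h => h.2⟩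

end Pool.Agent.NPC.ER.Faith
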