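import Pool.Agent.H606R2.Faith.Main
import Pool.Agent.H670R2.ERMem
import Pool.Agent.ER.Dec

/-!
# Membership in `∃ℝ`
-/

namespace Pool.Agent.NPC.ER.Faith

open Pool.Agent.NPC.H670R2 (ff tt conj holds_ff holds_tt holds_conj poly_conj poly_tvar poly_tadd
  poly_tmul poly_tneg poly_eq poly_not poly_and not_etr_ff)

/-! ### Recognising legitimate inputs -/

instance (e f : ℕ × ℕ × ℕ) : Decidable (Rel e f) := by unfold Rel; infer_instance

theorem Rel.symm {e f : ℕ × ℕ × ℕ} (h : Rel e f) : Rel f e := by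
  refine ⟨h.1.symm, fun h1 h2 => h.2 ?_ h2.symm⟩
  rcases h1 with h1 | h1 | h1 | h1
  · exact Or.inl h1.symm
  · exact Or.inr (Or.inr (Or.inl h1.symm))
  · exact Or.inr (Or.inl h1.symm)
  · exact Or.inr (Or.inr (Or.inr h1.symm))

/-- The test for legitimate inputs. -/
def inputB (G : CGraph) : Bool :=
  (G.2.all fun e => decide (e.1 < e.2.1 ∧ e.2.1 < G.1)) &&
  ((G.2.zipIdx.all fun p => G.2.zipIdx.all fun q => decide (p.2 = q.2 ∨ Rel p.1 q.1)) &&
  ((List.range (min G.1 (G.2.length + 1))).all fun v =>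
    decide ((G.2.filter fun e => decide (e.1 = v ∨ e.2.1 = v)).length = 4)))

theorem pairwise_iff_zipIdx {β : Type} {R : β → β → Prop} (hR : ∀ {a b}, R a b → R b a)
    (l : List β) : l.Pairwise R ↔
      ∀ p ∈ l.zipIdx, ∀ q ∈ l.zipIdx, p.2 = q.2 ∨ R p.1 q.1 := by
  rw [List.pairwise_iff_getElem]
  constructor
  · rintro h ⟨a, i⟩ hp ⟨b, j⟩ hq
    rw [List.mem_zipIdx_iff_getElem?, List.getElem?_eq_some_iff] at hp hq
    obtain ⟨hi, ha⟩ := hp
    obtain ⟨hj, hb⟩ := hq
    dsimp only at hi hj ha hb ⊢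
    subst ha hb
    rcases lt_trichotomy i j with h1 | h1 | h1
    · exact Or.inr (h i j hi hj h1)
    · exact Or.inl h1
    · exact Or.inr (hR (h j i hj hi h1))
  · intro h i j hi hj hij
    have := h (l[i], i) (List.mem_zipIdx_iff_getElem?.2 (List.getElem?_eq_getElem hi))
      (l[j], j) (List.mem_zipIdx_iff_getElem?.2 (List.getElem?_eq_getElem hj))
    rcases this with h1 | h1
    · simp only at h1
      omega
    · exact h1

theorem sum_degL_le (m : ℕ) : ∀ E : List (ℕ × ℕ × ℕ),
    ∑ v ∈ Finset.range m, degL E v ≤ 2 * E.length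
  | [] => by simp [degL]
  | e :: E => by
    have h : ∀ v, degL (e :: E) v ≤
        ((if e.1 = v then 1 else 0) + (if e.2.1 = v then 1 else 0)) + degL E v := by
      intro v
      unfold degL
      rw [List.filter_cons]
      split_ifs with h1 h2 h3 h4 <;> simp_all <;> omega
    calc ∑ v ∈ Finset.range m, degL (e :: E) v ≤ ∑ v ∈ Finset.range m,
          (((if e.1 = v then 1 else 0) + (if e.2.1 = v then 1 else 0)) + degL E v) :=
          Finset.sum_le_sum fun v _ => h v
      _ ≤ 2 + 2 * E.length := by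
          rw [Finset.sum_add_distrib, Finset.sum_add_distrib]
          have h1 : ∑ v ∈ Finset.range m, (if e.1 = v then 1 else 0) ≤ 1 := by
            rw [Finset.sum_ite_eq]; split_ifs <;> simp
          have h2 : ∑ v ∈ Finset.range m, (if e.2.1 = v then 1 else 0) ≤ 1 := by
            rw [Finset.sum_ite_eq]; split_ifs <;> simp
          have h3 := sum_degL_le m E
          omega
      _ = 2 * (e :: E).length := by simp; ring

theorem inputB_iff (G : CGraph) : inputB G = true ↔ IsInput G := by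
  unfold inputB
  simp only [Bool.and_eq_true, List.all_eq_true, decide_eq_true_eq, List.mem_range, lt_min_iff]
  constructor
  · rintro ⟨h1, h2, h3⟩
    have h4 : G.2.Pairwise Rel := (pairwise_iff_zipIdx Rel.symm _).2 h2
    refine ⟨h1, h4.imp fun h => h.1, ?_, h4.imp fun h => h.2⟩
    have hn : G.1 ≤ G.2.length := by
      by_contra hn
      have h5 : ∀ v ∈ Finset.range (G.2.length + 1), degL G.2 v = 4 := fun v hv =>
        h3 v ⟨by rw [Finset.mem_range] at hv; omega, Finset.mem_range.1 hv⟩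
      have h6 := sum_degL_le (G.2.length + 1) G.2
      rw [Finset.sum_congr rfl h5] at h6
      simp at h6
      omega
    intro v hv
    exact h3 v ⟨hv, by omega⟩
  · intro h
    refine ⟨h.lt, ?_, fun v hv => h.regular v hv.1⟩
    have h1 : G.2.Pairwise Rel := h.simple.and h.proper
    exact (pairwise_iff_zipIdx Rel.symm _).1 h1

/-! ### The formula -/

/-- The point with coordinates `x n, x (n + 1)`. -/
def pt (x : ℕ → ℝ) (n : ℕ) : ℝ × ℝ := (x n, x (n + 1))

/-- difference of variables -/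
def subT (n m : ℕ) : Tm := Tm.add (Tm.var n) (Tm.neg (Tm.var m))

/-- the determinant of three points vanishes -/
def detF (n m k : ℕ) : Fm :=
  Fm.eq (Tm.mul (subT m n) (subT (k + 1) (n + 1))) (Tm.mul (subT (m + 1) (n + 1)) (subT k n))

theorem holds_detF (x : ℕ → ℝ) (n m k : ℕ) :
    (detF n m k).Holds x ↔ det3 (hom (pt x n)) (hom (pt x m)) (hom (pt x k)) = 0 := by
  simp only [detF, Fm.Holds, subT, Tm.eval, det3, hom_0, hom_1, hom_2, pt]
  constructor <;> intro h <;> linarith

/-- two points are distinct -/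
def neF (n m : ℕ) : Fm :=
  Fm.not (Fm.and (Fm.eq (Tm.var n) (Tm.var m)) (Fm.eq (Tm.var (n + 1)) (Tm.var (m + 1))))

theorem holds_neF (x : ℕ → ℝ) (n m : ℕ) : (neF n m).Holds x ↔ pt x n ≠ pt x m := by
  simp only [neF, Fm.Holds, Tm.eval, pt, ne_eq, Prod.mk.injEq]

/-- the vertices of the edges -/
def verts (E : List (ℕ × ℕ × ℕ)) : List ℕ := E.flatMap fun e => [e.1, e.2.1]

/-- The list of conditions. -/
def conds (E : List (ℕ × ℕ × ℕ)) : List Fm :=
  ((verts E).flatMap fun u => (verts E).map fun v => if u = v then tt else neF (4 * u) (4 * v)) ++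
  ((E.map fun e => detF (4 * e.1) (4 * e.2.1) (4 * e.2.2 + 2)) ++
  (E.flatMap fun e => E.map fun f => if e = f then tt else
    Fm.not (Fm.and (detF (4 * e.1) (4 * e.2.1) (4 * f.1)) (detF (4 * e.1) (4 * e.2.1) (4 * f.2.1)))))

/-- The existential sentence of a graph. -/
def form (G : CGraph) : Fm := if inputB G = true then conj (conds G.2) else ff

theorem mem_verts {E : List (ℕ × ℕ × ℕ)} {v : ℕ} :
    v ∈ verts E ↔ ∃ e ∈ E, v = e.1 ∨ v = e.2.1 := by
  simp [verts, List.mem_flatMap]

theorem verts_iff {G : CGraph} (h : IsInput G) (v : ℕ) : v ∈ verts G.2 ↔ v < G.1 := by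
  rw [mem_verts]
  constructor
  · rintro ⟨e, he, hv⟩
    have := h.lt e he
    omega
  · intro hv
    have h1 := h.regular v hv
    have h2 : (G.2.filter fun e => decide (e.1 = v ∨ e.2.1 = v)) ≠ [] := by
      intro h0
      rw [h0] at h1
      simp at h1
    obtain ⟨e, he⟩ := List.exists_mem_of_ne_nil _ h2
    rw [List.mem_filter] at he
    refine ⟨e, he.1, ?_⟩
    have := he.2
    simp only [decide_eq_true_eq] at this
    rcases this with h3 | h3
    · exact Or.inl h3.symm
    · exact Or.inr h3.symm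

theorem form_correct (G : CGraph) : (IsInput G ∧ Drawable G) ↔ ETR (form G) := by
  unfold form
  by_cases hG : inputB G = true
  · rw [if_pos hG]
    have hI := (inputB_iff G).1 hG
    constructor
    · rintro ⟨_, p, hp⟩
      choose ce hce using hp.conc
      refine ⟨fun n => if n % 4 = 0 then (p (n / 4)).1 else if n % 4 = 1 then (p (n / 4)).2 else
        if n % 4 = 2 then (ce (n / 4)).1 else (ce (n / 4)).2, ?_⟩
      set x : ℕ → ℝ := fun n => if n % 4 = 0 then (p (n / 4)).1 else
        if n % 4 = 1 then (p (n / 4)).2 else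
        if n % 4 = 2 then (ce (n / 4)).1 else (ce (n / 4)).2 with hx
      have hp4 : ∀ v, pt x (4 * v) = p v := by
        intro v
        simp only [pt, hx]
        have e1 : (4 * v) % 4 = 0 := by omega
        have e2 : (4 * v + 1) % 4 = 1 := by omega
        have e3 : 4 * v / 4 = v := by omega
        have e4 : (4 * v + 1) / 4 = v := by omega
        rw [e1, e2, e3, e4]
        simp
      have hc4 : ∀ c, pt x (4 * c + 2) = ce c := by
        intro c
        simp only [pt, hx]
        have e1 : (4 * c + 2) % 4 = 2 := by omega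
        have e2 : (4 * c + 2 + 1) % 4 = 3 := by omega
        have e3 : (4 * c + 2) / 4 = c := by omega
        have e4 : (4 * c + 2 + 1) / 4 = c := by omega
        rw [e1, e2, e3, e4]
        simp
      rw [holds_conj]
      intro φ hφ
      simp only [conds, List.mem_append, List.mem_flatMap, List.mem_map] at hφ
      rcases hφ with ⟨u, hu, v, hv, rfl⟩ | ⟨e, he, rfl⟩ | ⟨e, he, f, hf, rfl⟩
      · split_ifs with huv
        · exact holds_tt x
        · rw [holds_neF, hp4, hp4]
          intro h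
          exact huv (hp.inj u ((verts_iff hI u).1 hu) v ((verts_iff hI v).1 hv) h)
      · rw [holds_detF, hp4, hp4, hc4]
        exact det_of_mem_line (hce _ e he rfl)
      · split_ifs with hef
        · exact holds_tt x
        · change ¬ _
          rintro ⟨h1, h2⟩
          rw [holds_detF, hp4, hp4, hp4] at h1 h2
          have hne := pt_ne hp hI.lt he
          have hne' := pt_ne hp hI.lt hf
          have m1 := mem_line_of_det hne h1
          have m2 := mem_line_of_det hne h2
          apply hp.lines e he f hf hef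
          apply le_antisymm
          · -- both points of `e` are on the line of `f`
            have d1 : det3 (hom (p f.1)) (hom (p f.2.1)) (hom (p e.1)) = 0 := by
              obtain ⟨a, b, ea⟩ := comb_of_mem_line m1
              obtain ⟨c, d, ec⟩ := comb_of_mem_line m2
              rw [ea, ec]
              have hz : ∀ X Y : V3, det3 (a • X + b • Y) (c • X + d • Y) X = 0 := by
                intro X Y
                simp only [det3, Pi.add_apply, Pi.smul_apply, smul_eq_mul]; ring
              exact hz _ _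
            have d2 : det3 (hom (p f.1)) (hom (p f.2.1)) (hom (p e.2.1)) = 0 := by
              obtain ⟨a, b, ea⟩ := comb_of_mem_line m1
              obtain ⟨c, d, ec⟩ := comb_of_mem_line m2
              rw [ea, ec]
              have hz : ∀ X Y : V3, det3 (a • X + b • Y) (c • X + d • Y) Y = 0 := by
                intro X Y
                simp only [det3, Pi.add_apply, Pi.smul_apply, smul_eq_mul]; ring
              exact hz _ _
            exact line_le (mem_line_of_det hne' d1) (mem_line_of_det hne' d2)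
          · exact line_le m1 m2
    · rintro ⟨x, hx⟩
      rw [holds_conj] at hx
      have h1 : ∀ u ∈ verts G.2, ∀ v ∈ verts G.2, u ≠ v → pt x (4 * u) ≠ pt x (4 * v) := by
        intro u hu v hv huv
        have := hx (if u = v then tt else neF (4 * u) (4 * v)) (by
          simp only [conds, List.mem_append, List.mem_flatMap, List.mem_map]
          exact Or.inl ⟨u, hu, v, hv, rfl⟩)
        rw [if_neg huv, holds_neF] at this
        exact this
      have h2 : ∀ e ∈ G.2, det3 (hom (pt x (4 * e.1))) (hom (pt x (4 * e.2.1)))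
          (hom (pt x (4 * e.2.2 + 2))) = 0 := by
        intro e he
        rw [← holds_detF]
        apply hx
        simp only [conds, List.mem_append, List.mem_flatMap, List.mem_map]
        exact Or.inr (Or.inl ⟨e, he, rfl⟩)
      have h3 : ∀ e ∈ G.2, ∀ f ∈ G.2, e ≠ f →
          ¬ (det3 (hom (pt x (4 * e.1))) (hom (pt x (4 * e.2.1))) (hom (pt x (4 * f.1))) = 0 ∧
          det3 (hom (pt x (4 * e.1))) (hom (pt x (4 * e.2.1))) (hom (pt x (4 * f.2.1))) = 0) := by
        intro e he f hf hef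
        have := hx (if e = f then tt else
          Fm.not (Fm.and (detF (4 * e.1) (4 * e.2.1) (4 * f.1))
            (detF (4 * e.1) (4 * e.2.1) (4 * f.2.1)))) (by
          simp only [conds, List.mem_append, List.mem_flatMap, List.mem_map]
          exact Or.inr (Or.inr ⟨e, he, f, hf, rfl⟩))
        rw [if_neg hef] at this
        rw [← holds_detF, ← holds_detF]
        exact this
      have hne : ∀ e ∈ G.2, pt x (4 * e.1) ≠ pt x (4 * e.2.1) := by
        intro e he
        have := hI.lt e he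
        exact h1 _ (mem_verts.2 ⟨e, he, Or.inl rfl⟩) _ (mem_verts.2 ⟨e, he, Or.inr rfl⟩) (by omega)
      refine ⟨hI, fun v => pt x (4 * v), fun u hu v hv h => ?_, fun c => ?_,
        fun e he f hf hef h => ?_⟩
      · by_contra huv
        exact h1 u ((verts_iff hI u).2 hu) v ((verts_iff hI v).2 hv) huv h
      · refine ⟨pt x (4 * c + 2), fun e he hc => ?_⟩
        subst hc
        exact mem_line_of_det (hne e he) (h2 e he)
      · refine h3 e he f hf hef ⟨?_, ?_⟩
        · apply det_of_mem_line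
          rw [h]
          exact left_mem_affineSpan_pair ℝ _ _
        · apply det_of_mem_line
          rw [h]
          exact right_mem_affineSpan_pair ℝ _ _
  · rw [if_neg hG]
    constructor
    · rintro ⟨h, _⟩
      exact absurd ((inputB_iff G).2 h) hG
    · intro h
      exact absurd h not_etr_ff

/-! ### Polynomial time -/

variable {α : Type} [TEnc α]

theorem poly_detF {n m k : α → ℕ} (hn : Poly n) (hm : Poly m) (hk : Poly k) :
    Poly (fun a => detF (n a) (m a) (k a)) := by
  have hs : ∀ {u v : α → ℕ}, Poly u → Poly v → Poly (fun a => subT (u a) (v a)) :=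
    fun hu hv => poly_tadd (poly_tvar hu) (poly_tneg (poly_tvar hv))
  exact poly_eq (poly_tmul (hs hm hn) (hs (Poly.succ hk) (Poly.succ hn)))
    (poly_tmul (hs (Poly.succ hm) (Poly.succ hn)) (hs hk hn))

theorem poly_neF {n m : α → ℕ} (hn : Poly n) (hm : Poly m) :
    Poly (fun a => neF (n a) (m a)) :=
  poly_not (poly_and (poly_eq (poly_tvar hn) (poly_tvar hm))
    (poly_eq (poly_tvar (Poly.succ hn)) (poly_tvar (Poly.succ hm))))

theorem poly_verts {E : α → List (ℕ × ℕ × ℕ)} (hE : Poly E) : Poly (fun a => verts (E a)) :=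
  Poly.flatMap (F := fun _ (e : ℕ × ℕ × ℕ) => [e.1, e.2.1]) hE
    (Poly.cons (Poly.fst (Poly.snd Poly.id)) (Poly.cons (Poly.fst (Poly.snd (Poly.snd Poly.id)))
      (Poly.const _)))

theorem poly_four {n : α → ℕ} (hn : Poly n) : Poly (fun a => 4 * n a) :=
  Poly.mul (Poly.const 4) hn

theorem poly_conds {E : α → List (ℕ × ℕ × ℕ)} (hE : Poly E) : Poly (fun a => conds (E a)) := by
  refine Poly.append ?_ (Poly.append ?_ ?_)
  · refine Poly.flatMap (F := fun a (u : ℕ) => (verts (E a)).map fun v =>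
      if u = v then tt else neF (4 * u) (4 * v)) (poly_verts hE) ?_
    refine Poly.map (F := fun (p : α × ℕ) (v : ℕ) => if p.2 = v then tt else
      neF (4 * p.2) (4 * v)) (poly_verts (hE.comp (Poly.fst Poly.id))) ?_
    exact Poly.ite (Poly.decide_eq (Poly.snd (Poly.fst Poly.id)) (Poly.snd Poly.id))
      (Poly.const _) (poly_neF (poly_four (Poly.snd (Poly.fst Poly.id)))
        (poly_four (Poly.snd Poly.id)))
  · refine Poly.map (F := fun _ (e : ℕ × ℕ × ℕ) => detF (4 * e.1) (4 * e.2.1) (4 * e.2.2 + 2))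
      hE ?_
    exact poly_detF (poly_four (Poly.fst (Poly.snd Poly.id)))
      (poly_four (Poly.fst (Poly.snd (Poly.snd Poly.id))))
      (Poly.add (poly_four (Poly.snd (Poly.snd (Poly.snd Poly.id)))) (Poly.const 2))
  · refine Poly.flatMap (F := fun a (e : ℕ × ℕ × ℕ) => (E a).map fun f => if e = f then tt else
      Fm.not (Fm.and (detF (4 * e.1) (4 * e.2.1) (4 * f.1))
        (detF (4 * e.1) (4 * e.2.1) (4 * f.2.1)))) hE ?_
    refine Poly.map (F := fun (p : α × ℕ × ℕ × ℕ) (f : ℕ × ℕ × ℕ) => if p.2 = f then tt else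
      Fm.not (Fm.and (detF (4 * p.2.1) (4 * p.2.2.1) (4 * f.1))
        (detF (4 * p.2.1) (4 * p.2.2.1) (4 * f.2.1)))) (hE.comp (Poly.fst Poly.id)) ?_
    have e1 : Poly (fun q : (α × ℕ × ℕ × ℕ) × ℕ × ℕ × ℕ => 4 * q.1.2.1) :=
      poly_four (Poly.fst (Poly.snd (Poly.fst Poly.id)))
    have e2 : Poly (fun q : (α × ℕ × ℕ × ℕ) × ℕ × ℕ × ℕ => 4 * q.1.2.2.1) :=
      poly_four (Poly.fst (Poly.snd (Poly.snd (Poly.fst Poly.id))))
    have f1 : Poly (fun q : (α × ℕ × ℕ × ℕ) × ℕ × ℕ × ℕ => 4 * q.2.1) :=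
      poly_four (Poly.fst (Poly.snd Poly.id))
    have f2 : Poly (fun q : (α × ℕ × ℕ × ℕ) × ℕ × ℕ × ℕ => 4 * q.2.2.1) :=
      poly_four (Poly.fst (Poly.snd (Poly.snd Poly.id)))
    exact Poly.ite (Poly.decide_eq (Poly.snd (Poly.fst Poly.id)) (Poly.snd Poly.id))
      (Poly.const _) (poly_not (poly_and (poly_detF e1 e2 f1) (poly_detF e1 e2 f2)))

theorem poly_inputB : Poly inputB := by
  have hn : Poly (fun G : CGraph => G.1) := Poly.fst Poly.id
  have hE : Poly (fun G : CGraph => G.2) := Poly.snd Poly.id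
  refine Poly.and ?_ (Poly.and ?_ ?_)
  · refine Poly.all (p := fun (G : CGraph) (e : ℕ × ℕ × ℕ) => decide (e.1 < e.2.1 ∧ e.2.1 < G.1))
      hE ?_
    exact Poly.decide_and (Poly.decide_lt (Poly.fst (Poly.snd Poly.id))
      (Poly.fst (Poly.snd (Poly.snd Poly.id)))) (Poly.decide_lt
      (Poly.fst (Poly.snd (Poly.snd Poly.id))) (Poly.fst (Poly.fst Poly.id)))
  · refine Poly.all (p := fun (G : CGraph) (p : (ℕ × ℕ × ℕ) × ℕ) => G.2.zipIdx.all fun q =>
      decide (p.2 = q.2 ∨ Rel p.1 q.1)) (Poly.zipIdx hE) ?_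
    refine Poly.all (p := fun (r : CGraph × (ℕ × ℕ × ℕ) × ℕ) (q : (ℕ × ℕ × ℕ) × ℕ) =>
      decide (r.2.2 = q.2 ∨ Rel r.2.1 q.1)) (Poly.zipIdx (hE.comp (Poly.fst Poly.id))) ?_
    have i1 : Poly (fun s : (CGraph × (ℕ × ℕ × ℕ) × ℕ) × (ℕ × ℕ × ℕ) × ℕ => s.1.2.2) :=
      Poly.snd (Poly.snd (Poly.fst Poly.id))
    have i2 : Poly (fun s : (CGraph × (ℕ × ℕ × ℕ) × ℕ) × (ℕ × ℕ × ℕ) × ℕ => s.2.2) :=
      Poly.snd (Poly.snd Poly.id)
    have e : Poly (fun s : (CGraph × (ℕ × ℕ × ℕ) × ℕ) × (ℕ × ℕ × ℕ) × ℕ => s.1.2.1) :=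
      Poly.fst (Poly.snd (Poly.fst Poly.id))
    have f : Poly (fun s : (CGraph × (ℕ × ℕ × ℕ) × ℕ) × (ℕ × ℕ × ℕ) × ℕ => s.2.1) :=
      Poly.fst (Poly.snd Poly.id)
    refine Poly.decide_or (Poly.decide_eq i1 i2) ?_
    have r1 : Poly (fun s : (CGraph × (ℕ × ℕ × ℕ) × ℕ) × (ℕ × ℕ × ℕ) × ℕ =>
        decide ((s.1.2.1.1, s.1.2.1.2.1) ≠ (s.2.1.1, s.2.1.2.1))) :=
      Poly.decide_not (Poly.decide_eq (Poly.pair (Poly.fst e) (Poly.fst (Poly.snd e)))
        (Poly.pair (Poly.fst f) (Poly.fst (Poly.snd f))))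
    have r2 : Poly (fun s : (CGraph × (ℕ × ℕ × ℕ) × ℕ) × (ℕ × ℕ × ℕ) × ℕ =>
        decide (¬ ((s.1.2.1.1 = s.2.1.1 ∨ s.1.2.1.1 = s.2.1.2.1 ∨ s.1.2.1.2.1 = s.2.1.1 ∨
          s.1.2.1.2.1 = s.2.1.2.1) ∧ s.1.2.1.2.2 = s.2.1.2.2))) :=
      Poly.decide_not (Poly.decide_and (Poly.decide_or (Poly.decide_eq (Poly.fst e) (Poly.fst f))
        (Poly.decide_or (Poly.decide_eq (Poly.fst e) (Poly.fst (Poly.snd f)))
          (Poly.decide_or (Poly.decide_eq (Poly.fst (Poly.snd e)) (Poly.fst f))
            (Poly.decide_eq (Poly.fst (Poly.snd e)) (Poly.fst (Poly.snd f))))))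
        (Poly.decide_eq (Poly.snd (Poly.snd e)) (Poly.snd (Poly.snd f))))
    refine (Poly.decide_and r1 r2).congr fun s => ?_
    apply decide_eq_decide.2
    unfold Rel
    constructor
    · rintro ⟨h1, h2⟩
      exact ⟨h1, fun h3 h4 => h2 ⟨h3, h4⟩⟩
    · rintro ⟨h1, h2⟩
      exact ⟨h1, fun h3 => h2 h3.1 h3.2⟩
  · have hl : UPoly (fun G : CGraph => G.2.length + 1) :=
      UPoly.add (UPoly.length hE) (UPoly.const 1)
    have hr : Poly (fun G : CGraph => List.range (min G.1 (G.2.length + 1))) :=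
      UPoly.range (UPoly.of_le (Poly.min hn hl.toPoly) hl fun G => min_le_right _ _)
    refine Poly.all (p := fun (G : CGraph) (v : ℕ) =>
      decide ((G.2.filter fun e => decide (e.1 = v ∨ e.2.1 = v)).length = 4)) hr ?_
    refine Poly.decide_eq (Poly.length (Poly.filter
      (p := fun (q : CGraph × ℕ) (e : ℕ × ℕ × ℕ) => decide (e.1 = q.2 ∨ e.2.1 = q.2))
      (hE.comp (Poly.fst Poly.id)) ?_)) (Poly.const _)
    exact Poly.decide_or (Poly.decide_eq (Poly.fst (Poly.snd Poly.id))
      (Poly.snd (Poly.fst Poly.id))) (Poly.decide_eq (Poly.fst (Poly.snd (Poly.snd Poly.id)))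
      (Poly.snd (Poly.fst Poly.id)))

theorem poly_form : Poly form :=
  Poly.ite (Poly.decide_bool poly_inputB) (poly_conj (poly_conds (Poly.snd Poly.id)))
    (Poly.const _)

/-- Faithful drawability belongs to `∃ℝ`. -/
theorem faithful_mem : InER (lang fun G : CGraph => IsInput G ∧ Drawable G) :=
  InER.of_poly poly_form form_correct

end Pool.Agent.NPC.ER.Faith
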