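import Mathlib

/-!
# Vectors of `ℝ³` as points of the projective plane

Determinants, spans, and the two configuration theorems (Desargues, Fano) behind the gadgets.
-/

namespace Pool.Agent.NPC.ER.Faith

/-- Homogeneous coordinates. -/
abbrev V3 : Type := Fin 3 → ℝ

/-- The cross product. -/
def cr (a b : V3) : V3 :=
  ![a 1 * b 2 - a 2 * b 1, a 2 * b 0 - a 0 * b 2, a 0 * b 1 - a 1 * b 0]

/-- The determinant. -/
def det3 (a b c : V3) : ℝ :=
  a 0 * (b 1 * c 2 - b 2 * c 1) - a 1 * (b 0 * c 2 - b 2 * c 0) + a 2 * (b 0 * c 1 - b 1 * c 0)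

/-- Linear independence of two vectors. -/
def Ind (a b : V3) : Prop := cr a b ≠ 0

/-- The scalar product. -/
def dt (a b : V3) : ℝ := a 0 * b 0 + a 1 * b 1 + a 2 * b 2

theorem det3_eq_dt (a b c : V3) : det3 a b c = dt (cr a b) c := by
  simp [det3, dt, cr]; ring

theorem det3_smul_add₁ (x y : ℝ) (a b c d : V3) :
    det3 (x • a + y • b) c d = x * det3 a c d + y * det3 b c d := by
  simp [det3]; ring

theorem det3_smul_add₂ (x y : ℝ) (a b c d : V3) :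
    det3 c (x • a + y • b) d = x * det3 c a d + y * det3 c b d := by
  simp [det3]; ring

theorem det3_smul_add₃ (x y : ℝ) (a b c d : V3) :
    det3 c d (x • a + y • b) = x * det3 c d a + y * det3 c d b := by
  simp [det3]; ring

theorem det3_swap₁₂ (a b c : V3) : det3 b a c = - det3 a b c := by simp [det3]; ring

theorem det3_swap₂₃ (a b c : V3) : det3 a c b = - det3 a b c := by simp [det3]; ring

theorem det3_swap₁₃ (a b c : V3) : det3 c b a = - det3 a b c := by simp [det3]; ring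

theorem det3_rot (a b c : V3) : det3 b c a = det3 a b c := by simp [det3]; ring

theorem det3_rot' (a b c : V3) : det3 c a b = det3 a b c := by simp [det3]; ring

@[simp] theorem det3_self₁₂ (a c : V3) : det3 a a c = 0 := by simp [det3]; ring

@[simp] theorem det3_self₂₃ (a c : V3) : det3 a c c = 0 := by simp [det3]; ring

@[simp] theorem det3_self₁₃ (a c : V3) : det3 a c a = 0 := by simp [det3]; ring

theorem det3_zero₁ (a b : V3) : det3 0 a b = 0 := by simp [det3]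

theorem Ind.of_det {a b c : V3} (h : det3 a b c ≠ 0) : Ind a b := by
  intro h0
  apply h
  rw [det3_eq_dt, h0]
  simp [dt]

theorem Ind.symm {a b : V3} (h : Ind a b) : Ind b a := by
  intro h0
  apply h
  have h1 : cr a b = - cr b a := by
    funext i
    fin_cases i <;> simp [cr] <;> ring
  rw [h1, h0, neg_zero]

theorem ind_iff {a b : V3} : Ind a b ↔ ∃ c, det3 a b c ≠ 0 := by
  constructor
  · intro h
    refine ⟨cr a b, fun h0 => h ?_⟩
    rw [det3_eq_dt] at h0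
    have h1 : cr a b 0 = 0 ∧ cr a b 1 = 0 ∧ cr a b 2 = 0 := by
      unfold dt at h0
      refine ⟨?_, ?_, ?_⟩ <;> nlinarith [sq_nonneg (cr a b 0), sq_nonneg (cr a b 1),
        sq_nonneg (cr a b 2)]
    funext i
    fin_cases i
    · exact h1.1
    · exact h1.2.1
    · exact h1.2.2
  · rintro ⟨c, h⟩
    exact Ind.of_det h

theorem Ind.ne_zero_left {a b : V3} (h : Ind a b) : a ≠ 0 := by
  rintro rfl
  apply h
  funext i
  fin_cases i <;> simp [cr]

theorem Ind.ne_zero_right {a b : V3} (h : Ind a b) : b ≠ 0 := h.symm.ne_zero_left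

theorem Ind.smul {a b : V3} (h : Ind a b) {s t : ℝ} (hs : s ≠ 0) (ht : t ≠ 0) :
    Ind (s • a) (t • b) := by
  obtain ⟨c, hc⟩ := ind_iff.1 h
  refine ind_iff.2 ⟨c, ?_⟩
  have : det3 (s • a) (t • b) c = s * t * det3 a b c := by simp [det3]; ring
  rw [this]
  exact mul_ne_zero (mul_ne_zero hs ht) hc

/-- Cramer's rule: a vector in the plane of two independent vectors. -/
theorem exists_comb {a b w : V3} (h : Ind a b) (hw : det3 a b w = 0) :
    ∃ s t : ℝ, w = s • a + t • b := by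
  obtain ⟨c, hc⟩ := ind_iff.1 h
  refine ⟨det3 w b c / det3 a b c, det3 a w c / det3 a b c, ?_⟩
  have key : ∀ i, det3 a b c * w i = det3 w b c * a i + det3 a w c * b i + det3 a b w * c i := by
    intro i
    fin_cases i <;> simp [det3] <;> ring
  funext i
  have := key i
  rw [hw, zero_mul, add_zero] at this
  simp only [Pi.add_apply, Pi.smul_apply, smul_eq_mul]
  field_simp
  linarith

/-- Three pairwise distinct collinear points. -/
def Col3 (a b c : V3) : Prop := det3 a b c = 0 ∧ Ind a b ∧ Ind a c ∧ Ind b c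

/-- **Desargues.** -/
theorem desargues {P₁ P₂ P₃ R₁ R₂ R₃ O A B C : V3}
    (hO : O ≠ 0) (hA0 : A ≠ 0) (hB0 : B ≠ 0) (hC0 : C ≠ 0)
    (hO1 : ∃ a b : ℝ, O = a • P₁ + b • R₁) (hO2 : ∃ a b : ℝ, O = a • P₂ + b • R₂)
    (hO3 : ∃ a b : ℝ, O = a • P₃ + b • R₃)
    (hA : ∃ a b : ℝ, A = a • P₁ + b • P₂) (hA' : ∃ a b : ℝ, A = a • R₁ + b • R₂)
    (hB : ∃ a b : ℝ, B = a • P₂ + b • P₃) (hB' : ∃ a b : ℝ, B = a • R₂ + b • R₃)
    (hC : ∃ a b : ℝ, C = a • P₁ + b • P₃) (hC' : ∃ a b : ℝ, C = a • R₁ + b • R₃)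
    (hP : det3 P₁ P₂ P₃ ≠ 0)
    (h121 : det3 P₁ R₁ R₂ ≠ 0) (h232 : det3 P₂ R₂ R₃ ≠ 0) (h131 : det3 P₁ R₁ R₃ ≠ 0)
    (h313 : det3 P₃ R₁ R₃ ≠ 0) :
    Col3 A B C := by
  obtain ⟨α₁, β₁, o1⟩ := hO1
  obtain ⟨α₂, β₂, o2⟩ := hO2
  obtain ⟨α₃, β₃, o3⟩ := hO3
  obtain ⟨a₁, a₂, rfl⟩ := hA
  obtain ⟨b₂, b₃, rfl⟩ := hB
  obtain ⟨c₁, c₃, rfl⟩ := hC
  obtain ⟨a₁', a₂', ha⟩ := hA'
  obtain ⟨b₂', b₃', hb⟩ := hB'
  obtain ⟨c₁', c₃', hc⟩ := hC'
  -- the coefficients `αᵢ` do not vanish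
  have hα₁ : α₁ ≠ 0 := by
    rintro rfl
    have h1 : O = β₁ • R₁ := by rw [o1]; simp
    have h2 : β₁ * det3 R₁ R₃ P₃ = 0 := by
      have e1 : det3 O R₃ P₃ = 0 := by
        rw [o3]; simp [det3]; ring
      rw [h1] at e1
      have e2 : det3 (β₁ • R₁) R₃ P₃ = β₁ * det3 R₁ R₃ P₃ := by simp [det3]; ring
      rw [← e2]; exact e1
    rcases mul_eq_zero.1 h2 with h3 | h3
    · apply hO
      rw [h1, h3, zero_smul]
    · apply h313
      rw [← det3_rot]; exact h3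
  have hα₂ : α₂ ≠ 0 := by
    rintro rfl
    have h1 : O = β₂ • R₂ := by rw [o2]; simp
    have h2 : β₂ * det3 P₁ R₁ R₂ = 0 := by
      have e1 : det3 P₁ R₁ O = 0 := by
        rw [o1]; simp [det3]; ring
      rw [h1] at e1
      have e2 : det3 P₁ R₁ (β₂ • R₂) = β₂ * det3 P₁ R₁ R₂ := by simp [det3]; ring
      rw [← e2]; exact e1
    rcases mul_eq_zero.1 h2 with h3 | h3
    · apply hO
      rw [h1, h3, zero_smul]
    · exact h121 h3
  have hα₃ : α₃ ≠ 0 := by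
    rintro rfl
    have h1 : O = β₃ • R₃ := by rw [o3]; simp
    have h2 : β₃ * det3 P₁ R₁ R₃ = 0 := by
      have e1 : det3 P₁ R₁ O = 0 := by
        rw [o1]; simp [det3]; ring
      rw [h1] at e1
      have e2 : det3 P₁ R₁ (β₃ • R₃) = β₃ * det3 P₁ R₁ R₃ := by simp [det3]; ring
      rw [← e2]; exact e1
    rcases mul_eq_zero.1 h2 with h3 | h3
    · apply hO
      rw [h1, h3, zero_smul]
    · exact h131 h3
  -- relations
  have ea : a₁ * α₂ + a₂ * α₁ = 0 := by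
    have e1 : det3 (a₁ • P₁ + a₂ • P₂) R₁ R₂ = 0 := by rw [ha]; simp [det3]; ring
    rw [det3_smul_add₁] at e1
    have e2 : det3 (α₁ • P₁ + β₁ • R₁) R₁ R₂ = det3 (α₂ • P₂ + β₂ • R₂) R₁ R₂ := by
      rw [← o1, ← o2]
    rw [det3_smul_add₁, det3_smul_add₁] at e2
    simp only [det3_self₁₂, det3_self₁₃, mul_zero, add_zero] at e2
    have e3 : (a₁ * α₂ + a₂ * α₁) * det3 P₁ R₁ R₂ = 0 := by
      linear_combination α₂ * e1 + a₂ * e2
    rcases mul_eq_zero.1 e3 with h | h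
    · exact h
    · exact absurd h h121
  have eb : b₂ * α₃ + b₃ * α₂ = 0 := by
    have e1 : det3 (b₂ • P₂ + b₃ • P₃) R₂ R₃ = 0 := by rw [hb]; simp [det3]; ring
    rw [det3_smul_add₁] at e1
    have e2 : det3 (α₂ • P₂ + β₂ • R₂) R₂ R₃ = det3 (α₃ • P₃ + β₃ • R₃) R₂ R₃ := by
      rw [← o2, ← o3]
    rw [det3_smul_add₁, det3_smul_add₁] at e2
    simp only [det3_self₁₂, det3_self₁₃, mul_zero, add_zero] at e2
    have e3 : (b₂ * α₃ + b₃ * α₂) * det3 P₂ R₂ R₃ = 0 := by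
      linear_combination α₃ * e1 + b₃ * e2
    rcases mul_eq_zero.1 e3 with h | h
    · exact h
    · exact absurd h h232
  have ec : c₁ * α₃ + c₃ * α₁ = 0 := by
    have e1 : det3 (c₁ • P₁ + c₃ • P₃) R₁ R₃ = 0 := by rw [hc]; simp [det3]; ring
    rw [det3_smul_add₁] at e1
    have e2 : det3 (α₁ • P₁ + β₁ • R₁) R₁ R₃ = det3 (α₃ • P₃ + β₃ • R₃) R₁ R₃ := by
      rw [← o1, ← o3]
    rw [det3_smul_add₁, det3_smul_add₁] at e2
    simp only [det3_self₁₂, det3_self₁₃, mul_zero, add_zero] at e2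
    have e3 : (c₁ * α₃ + c₃ * α₁) * det3 P₁ R₁ R₃ = 0 := by
      linear_combination α₃ * e1 + c₃ * e2
    rcases mul_eq_zero.1 e3 with h | h
    · exact h
    · exact absurd h h131
  -- nonvanishing of the coefficients
  have na : a₁ ≠ 0 ∧ a₂ ≠ 0 := by
    constructor
    · rintro rfl
      have : a₂ = 0 := by
        rcases mul_eq_zero.1 (by linarith : a₂ * α₁ = 0) with h | h
        · exact h
        · exact absurd h hα₁
      exact hA0 (by rw [this]; simp)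
    · rintro rfl
      have : a₁ = 0 := by
        rcases mul_eq_zero.1 (by linarith : a₁ * α₂ = 0) with h | h
        · exact h
        · exact absurd h hα₂
      exact hA0 (by rw [this]; simp)
  have nb : b₂ ≠ 0 ∧ b₃ ≠ 0 := by
    constructor
    · rintro rfl
      have : b₃ = 0 := by
        rcases mul_eq_zero.1 (by linarith : b₃ * α₂ = 0) with h | h
        · exact h
        · exact absurd h hα₂
      exact hB0 (by rw [this]; simp)
    · rintro rfl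
      have : b₂ = 0 := by
        rcases mul_eq_zero.1 (by linarith : b₂ * α₃ = 0) with h | h
        · exact h
        · exact absurd h hα₃
      exact hB0 (by rw [this]; simp)
  have nc : c₁ ≠ 0 ∧ c₃ ≠ 0 := by
    constructor
    · rintro rfl
      have : c₃ = 0 := by
        rcases mul_eq_zero.1 (by linarith : c₃ * α₁ = 0) with h | h
        · exact h
        · exact absurd h hα₁
      exact hC0 (by rw [this]; simp)
    · rintro rfl
      have : c₁ = 0 := by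
        rcases mul_eq_zero.1 (by linarith : c₁ * α₃ = 0) with h | h
        · exact h
        · exact absurd h hα₃
      exact hC0 (by rw [this]; simp)
  refine ⟨?_, ?_, ?_, ?_⟩
  · have e1 : det3 (a₁ • P₁ + a₂ • P₂) (b₂ • P₂ + b₃ • P₃) (c₁ • P₁ + c₃ • P₃) =
        (a₁ * b₂ * c₃ + a₂ * b₃ * c₁) * det3 P₁ P₂ P₃ := by
      simp [det3]; ring
    have e2 : α₁ * α₂ * α₃ * (a₁ * b₂ * c₃ + a₂ * b₃ * c₁) = 0 := by
      linear_combination (a₂ * α₁ * b₃ * α₂) * ec - (a₂ * α₁ * c₃ * α₁) * eb +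
        (b₂ * α₃ * c₃ * α₁) * ea
    have e3 : a₁ * b₂ * c₃ + a₂ * b₃ * c₁ = 0 := by
      rcases mul_eq_zero.1 e2 with h | h
      · exact absurd h (mul_ne_zero (mul_ne_zero hα₁ hα₂) hα₃)
      · exact h
    rw [e1, e3, zero_mul]
  · refine ind_iff.2 ⟨P₁, ?_⟩
    have e1 : det3 (a₁ • P₁ + a₂ • P₂) (b₂ • P₂ + b₃ • P₃) P₁ = a₂ * b₃ * det3 P₁ P₂ P₃ := by
      simp [det3]; ring
    rw [e1]
    exact mul_ne_zero (mul_ne_zero na.2 nb.2) hP
  · refine ind_iff.2 ⟨P₂, ?_⟩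
    have e1 : det3 (a₁ • P₁ + a₂ • P₂) (c₁ • P₁ + c₃ • P₃) P₂ = -(a₁ * c₃ * det3 P₁ P₂ P₃) := by
      simp [det3]; ring
    rw [e1]
    exact neg_ne_zero.2 (mul_ne_zero (mul_ne_zero na.1 nc.2) hP)
  · refine ind_iff.2 ⟨P₃, ?_⟩
    have e1 : det3 (b₂ • P₂ + b₃ • P₃) (c₁ • P₁ + c₃ • P₃) P₃ = -(b₂ * c₁ * det3 P₁ P₂ P₃) := by
      simp [det3]; ring
    rw [e1]
    exact neg_ne_zero.2 (mul_ne_zero (mul_ne_zero nb.1 nc.1) hP)

/-- **Fano's axiom over the reals**: the diagonal points of a complete quadrangle are not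
collinear. -/
theorem fano {P₀ P₁ P₂ P₃ A B C : V3} (hA0 : A ≠ 0) (hB0 : B ≠ 0) (hC0 : C ≠ 0)
    (hA : ∃ a b : ℝ, A = a • P₀ + b • P₁) (hA' : ∃ a b : ℝ, A = a • P₂ + b • P₃)
    (hB : ∃ a b : ℝ, B = a • P₀ + b • P₂) (hB' : ∃ a b : ℝ, B = a • P₁ + b • P₃)
    (hC : ∃ a b : ℝ, C = a • P₀ + b • P₃) (hC' : ∃ a b : ℝ, C = a • P₁ + b • P₂)
    (h012 : det3 P₀ P₁ P₂ ≠ 0) (h013 : det3 P₀ P₁ P₃ ≠ 0) (h023 : det3 P₀ P₂ P₃ ≠ 0)
    (h123 : det3 P₁ P₂ P₃ ≠ 0) :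
    det3 A B C ≠ 0 := by
  obtain ⟨a₀, a₁, rfl⟩ := hA
  obtain ⟨b₀, b₂, rfl⟩ := hB
  obtain ⟨c₁, c₂, rfl⟩ := hC'
  obtain ⟨a₂', a₃', ha⟩ := hA'
  obtain ⟨b₁', b₃', hb⟩ := hB'
  obtain ⟨c₀', c₃', hc⟩ := hC
  -- relations
  have e1 : a₀ * det3 P₀ P₂ P₃ + a₁ * det3 P₁ P₂ P₃ = 0 := by
    rw [← det3_smul_add₁, ha]; simp [det3]; ring
  have e2 : b₀ * det3 P₀ P₁ P₃ + b₂ * det3 P₂ P₁ P₃ = 0 := by
    rw [← det3_smul_add₁, hb]; simp [det3]; ring
  have e3 : c₁ * det3 P₁ P₀ P₃ + c₂ * det3 P₂ P₀ P₃ = 0 := by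
    rw [← det3_smul_add₁, hc]; simp [det3]; ring
  rw [det3_swap₁₂ P₁ P₂] at e2
  rw [det3_swap₁₂ P₀ P₁, det3_swap₁₂ P₀ P₂] at e3
  have na : a₀ ≠ 0 := by
    rintro rfl
    have : a₁ = 0 := by
      rcases mul_eq_zero.1 (by linarith : a₁ * det3 P₁ P₂ P₃ = 0) with h | h
      · exact h
      · exact absurd h h123
    exact hA0 (by rw [this]; simp)
  have nb : b₀ ≠ 0 := by
    rintro rfl
    have : b₂ = 0 := by
      rcases mul_eq_zero.1 (by linarith : b₂ * det3 P₁ P₂ P₃ = 0) with h | h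
      · exact h
      · exact absurd h h123
    exact hB0 (by rw [this]; simp)
  have nc : c₁ ≠ 0 := by
    rintro rfl
    have : c₂ = 0 := by
      rcases mul_eq_zero.1 (by linarith : c₂ * det3 P₀ P₂ P₃ = 0) with h | h
      · exact h
      · exact absurd h h023
    exact hC0 (by rw [this]; simp)
  have e4 : det3 (a₀ • P₀ + a₁ • P₁) (b₀ • P₀ + b₂ • P₂) (c₁ • P₁ + c₂ • P₂) =
      -(a₀ * b₂ * c₁ + a₁ * b₀ * c₂) * det3 P₀ P₁ P₂ := by
    simp [det3]; ring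
  rw [e4]
  refine mul_ne_zero (neg_ne_zero.2 ?_) h012
  intro h
  -- multiply by the product of the determinants
  have e5 : det3 P₁ P₂ P₃ * det3 P₀ P₂ P₃ * (a₀ * b₂ * c₁ + a₁ * b₀ * c₂) =
      2 * (a₀ * b₀ * c₁ * (det3 P₀ P₁ P₃ * det3 P₀ P₂ P₃)) := by
    linear_combination (-(a₀ * c₁ * det3 P₀ P₂ P₃)) * e2 +
      (b₀ * c₂ * det3 P₀ P₂ P₃) * e1 + (a₀ * b₀ * det3 P₀ P₂ P₃) * e3
  rw [h, mul_zero] at e5
  have := mul_ne_zero (mul_ne_zero (mul_ne_zero na nb) nc) (mul_ne_zero h013 h023)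
  apply this
  linarith

end Pool.Agent.NPC.ER.Faith
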